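import Mathlib

/-! # Definitions: optimal transport maps and submersions of compact metric measure spaces -/

set_option autoImplicit false

open MeasureTheory Set Topology Filter
open scoped ENNReal NNReal BoundedContinuousFunction

namespace Pool.Agent.Lib.MP_eae870_an

universe u v

section Defs

variable {X : Type u} [MetricSpace X] [MeasurableSpace X]

/-- The measure `μ` has a density with respect to `m` which is bounded from above and from below
by positive constants. -/
def HasBoundedDensity (m μ : Measure X) : Prop :=
  ∃ (l : ℝ) (f : X → ℝ), 0 < l ∧ Measurable f ∧ (∀ x, l ≤ f x ∧ f x ≤ 1 / l) ∧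
    μ = m.withDensity fun x => ENNReal.ofReal (f x)

/-- `γ` is a coupling (transport plan) of `μ` and `ν`. -/
def IsCoupling (μ ν : Measure X) (γ : Measure (X × X)) : Prop :=
  γ.map Prod.fst = μ ∧ γ.map Prod.snd = ν

/-- The total cost of the plan `γ` for the cost function `d ^ 2 / 2`. -/
noncomputable def cost (γ : Measure (X × X)) : ℝ := ∫ z, dist z.1 z.2 ^ 2 / 2 ∂γ

/-- The plan given by the map `T`. -/
noncomputable def graphPlan (μ : Measure X) (T : X → X) : Measure (X × X) :=
  μ.map fun x => (x, T x)

/-- There is a unique optimal transport plan from `μ` to `ν`, and it is given by a continuous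
map. -/
def HasContinuousOptimalMap (μ ν : Measure X) : Prop :=
  ∃ T : X → X, Continuous T ∧ μ.map T = ν ∧ ∀ γ : Measure (X × X), IsCoupling μ ν γ →
    cost (graphPlan μ T) ≤ cost γ ∧ (cost γ = cost (graphPlan μ T) → γ = graphPlan μ T)

end Defs

section Submersion

variable {X : Type u} [MetricSpace X] [MeasurableSpace X] [BorelSpace X]
variable {B : Type v} [MetricSpace B]

/-- `p : X → B` is a submersion with fibre measures `κ b` and constant `A`: the map `p` is
1-Lipschitz, the probability measures `κ b` depend weakly continuously on `b`, the measure `κ b`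
is carried by the fibre of `p` over `b` and charges every open set which meets this fibre, and
for all `b`, `b'` there is a plan which moves every point of the fibre over `b` by exactly the
distance of `b` and `b'` and whose second marginal is comparable to `κ b'` (up to the factor `A`;
for `A = 1` it is equal to `κ b'`). -/
structure IsSubmersion (p : X → B) (κ : B → ProbabilityMeasure X) (A : ℝ≥0∞) : Prop where
  lip : ∀ x y, dist (p x) (p y) ≤ dist x y
  cont : Continuous κ
  fibre : ∀ b, (κ b : Measure X) {x | p x ≠ b} = 0
  full : ∀ (x : X) (U : Set X), IsOpen U → x ∈ U → (κ (p x) : Measure X) U ≠ 0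
  lift : ∀ b b' : B, ∃ Γ : Measure (X × X), Γ.map Prod.fst = (κ b : Measure X) ∧
    Γ.map Prod.snd ≤ A • (κ b' : Measure X) ∧ (κ b' : Measure X) ≤ A • Γ.map Prod.snd ∧
    Γ {z | dist z.1 z.2 ≠ dist b b'} = 0


end Submersion

end Pool.Agent.Lib.MP_eae870_an
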