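import Pool.Agent.Lib.MP_eae870_an.Plans

/-! # Descent of the continuity property along submersions -/

set_option autoImplicit false

open MeasureTheory Set Topology Filter
open scoped ENNReal NNReal BoundedContinuousFunction

namespace Pool.Agent.Lib.MP_eae870_an

universe u v

/-! ### Lifting plans along a submersion -/

section Lift

variable {X : Type u} [MetricSpace X] [CompactSpace X] [MeasurableSpace X] [BorelSpace X]
variable {B : Type v} [MetricSpace B] [CompactSpace B] [MeasurableSpace B] [BorelSpace B]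

variable {p : X → B} {κ : B → ProbabilityMeasure X} {A : ℝ≥0∞}

omit [CompactSpace X] [CompactSpace B] [MeasurableSpace B] [BorelSpace B] in
theorem IsSubmersion.continuous (hp : IsSubmersion p κ A) : Continuous p :=
  (LipschitzWith.of_dist_le' (K := 1) (by simpa using hp.lip)).continuous

omit [CompactSpace X] [CompactSpace B] [MeasurableSpace B] [BorelSpace B] in
theorem IsSubmersion.surjective (hp : IsSubmersion p κ A) : Function.Surjective p := by
  intro b
  by_contra hb
  push Not at hb
  have h1 := hp.fibre b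
  have h2 : {x : X | p x ≠ b} = univ := by
    ext x; simp [hb x]
  rw [h2, measure_univ] at h1
  exact one_ne_zero h1

theorem limit_lintegral {Z W : Type*} [MetricSpace Z] [CompactSpace Z] [MeasurableSpace Z]
    [BorelSpace Z] [MetricSpace W] [CompactSpace W] [MeasurableSpace W] [BorelSpace W]
    (Γ : W → Measure Z) [∀ w, IsProbabilityMeasure (Γ w)] (γ : Measure W)
    [IsProbabilityMeasure γ] :
    ∃ L : Measure Z, IsProbabilityMeasure L ∧
      (∀ (φ : Z →ᵇ ℝ≥0) (F : W → ℝ≥0∞), Continuous F → (∃ C : ℝ≥0∞, C ≠ ∞ ∧ ∀ w, F w ≤ C) →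
        (∀ w, ∫⁻ z, φ z ∂(Γ w) ≤ F w) → ∫⁻ z, φ z ∂L ≤ ∫⁻ w, F w ∂γ) ∧
      (∀ (φ : Z →ᵇ ℝ≥0) (F : W → ℝ≥0∞) (A : ℝ≥0∞), A ≠ ∞ → Continuous F →
        (∃ C : ℝ≥0∞, C ≠ ∞ ∧ ∀ w, F w ≤ C) →
        (∀ w, F w ≤ A * ∫⁻ z, φ z ∂(Γ w)) → ∫⁻ w, F w ∂γ ≤ A * ∫⁻ z, φ z ∂L) := by
  classical
  have hne : Nonempty W := by
    by_contra h
    rw [not_nonempty_iff] at h
    have h1 : γ univ = 1 := measure_univ
    have h2 : (univ : Set W) = ∅ := Subsingleton.elim _ _
    rw [h2, measure_empty] at h1
    exact zero_ne_one h1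
  obtain ⟨w0⟩ := hne
  let sn : ℕ → SimpleFunc W W := fun n =>
    SimpleFunc.approxOn (id : W → W) measurable_id univ w0 (mem_univ _) n
  have hsn : ∀ w, Tendsto (fun n => sn n w) atTop (𝓝 w) := fun w =>
    SimpleFunc.tendsto_approxOn measurable_id (mem_univ _) (by simp)
  let G : ℕ → SimpleFunc W (Measure Z) := fun n => (sn n).map Γ
  have hG : ∀ n w, G n w = Γ (sn n w) := fun n w => rfl
  have hGm : ∀ n, Measurable (G n) := fun n => (G n).measurable
  have hprob : ∀ n, IsProbabilityMeasure (γ.bind (G n)) := by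
    intro n
    refine ⟨?_⟩
    rw [Measure.bind_apply MeasurableSet.univ (hGm n).aemeasurable]
    simp [hG]
  let P : ℕ → ProbabilityMeasure Z := fun n => ⟨γ.bind (G n), hprob n⟩
  let U : Ultrafilter (ProbabilityMeasure Z) := (hyperfilter ℕ).map P
  obtain ⟨L, hL⟩ : ∃ L, Tendsto P (hyperfilter ℕ : Filter ℕ) (𝓝 L) :=
    ⟨U.lim, U.le_nhds_lim⟩
  have hyp : (hyperfilter ℕ : Filter ℕ) ≤ atTop := Nat.hyperfilter_le_atTop
  have hval : ∀ (φ : Z →ᵇ ℝ≥0) (n : ℕ), ∫⁻ z, φ z ∂(P n : Measure Z) =
      ∫⁻ w, ∫⁻ z, φ z ∂(Γ (sn n w)) ∂γ := by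
    intro φ n
    have hφ : Measurable fun z => (φ z : ℝ≥0∞) := by fun_prop
    exact Measure.lintegral_bind (hGm n).aemeasurable hφ.aemeasurable
  have hlim : ∀ φ : Z →ᵇ ℝ≥0, Tendsto (fun n => ∫⁻ w, ∫⁻ z, φ z ∂(Γ (sn n w)) ∂γ)
      (hyperfilter ℕ : Filter ℕ) (𝓝 (∫⁻ z, φ z ∂(L : Measure Z))) := by
    intro φ
    have := (ProbabilityMeasure.tendsto_iff_forall_lintegral_tendsto.1 hL) φ
    refine this.congr fun n => hval φ n
  have hF : ∀ F : W → ℝ≥0∞, Continuous F → (∃ C : ℝ≥0∞, C ≠ ∞ ∧ ∀ w, F w ≤ C) →
      Tendsto (fun n => ∫⁻ w, F (sn n w) ∂γ) atTop (𝓝 (∫⁻ w, F w ∂γ)) := by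
    rintro F hF ⟨C, hC, hCF⟩
    refine tendsto_lintegral_of_dominated_convergence (fun _ => C) ?_ ?_ ?_ ?_
    · intro n
      exact hF.measurable.comp (sn n).measurable
    · intro n
      exact Eventually.of_forall fun w => hCF _
    · simpa using hC
    · exact Eventually.of_forall fun w => (hF.tendsto w).comp (hsn w)
  refine ⟨(L : Measure Z), inferInstance, ?_, ?_⟩
  · intro φ F hFc hFb hle
    refine le_of_tendsto_of_tendsto' (hlim φ) ((hF F hFc hFb).mono_left hyp) fun n => ?_
    exact lintegral_mono fun w => hle _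
  · intro φ F A hA hFc hFb hle
    refine le_of_tendsto_of_tendsto' ((hF F hFc hFb).mono_left hyp)
      (ENNReal.Tendsto.const_mul (hlim φ) (Or.inr hA)) fun n => ?_
    rw [← lintegral_const_mul' _ _ hA]
    exact lintegral_mono fun w => hle _

theorem exists_bound {Z : Type*} [TopologicalSpace Z] [MeasurableSpace Z] (θ : Z →ᵇ ℝ≥0) :
    ∃ C : ℝ≥0∞, C ≠ ∞ ∧ ∀ μ : Measure Z, IsProbabilityMeasure μ → ∫⁻ z, θ z ∂μ ≤ C := by
  refine ⟨((nndist θ 0 : ℝ≥0) : ℝ≥0∞), ENNReal.coe_ne_top, fun μ hμ => ?_⟩
  calc ∫⁻ z, θ z ∂μ ≤ ∫⁻ _, ((nndist θ 0 : ℝ≥0) : ℝ≥0∞) ∂μ :=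
        lintegral_mono fun z => ENNReal.coe_le_coe.2
          (BoundedContinuousFunction.NNReal.upper_bound θ z)
    _ = ((nndist θ 0 : ℝ≥0) : ℝ≥0∞) := by
        rw [lintegral_const, measure_univ, mul_one]

/-- Plans on `B` lift to plans on `X`. -/
theorem exists_lift (hA : A ≠ ∞) (hp : IsSubmersion p κ A) (γ : Measure (B × B))
    [IsProbabilityMeasure γ] :
    ∃ g : Measure (X × X), IsProbabilityMeasure g ∧
      g {z | dist z.1 z.2 ≠ dist (p z.1) (p z.2)} = 0 ∧
      g.map (fun z => (z.1, p z.2)) =
        γ.bind (fun w => (κ w.1 : Measure X).prod (Measure.dirac w.2)) ∧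
      g.map Prod.snd ≤ A • γ.bind (fun w => (κ w.2 : Measure X)) ∧
      γ.bind (fun w => (κ w.2 : Measure X)) ≤ A • g.map Prod.snd := by
  have hpc := hp.continuous
  choose Γ hΓ1 hΓ2 hΓ3 hΓ4 using hp.lift
  have hprob : ∀ w : B × B, IsProbabilityMeasure (Γ w.1 w.2) := by
    intro w
    refine ⟨?_⟩
    have h1 : (Γ w.1 w.2).map Prod.fst univ = 1 := by
      rw [hΓ1]; exact measure_univ
    rwa [Measure.map_apply measurable_fst MeasurableSet.univ, preimage_univ] at h1
  obtain ⟨L, hLp, hL1, hL2⟩ := limit_lintegral (Z := X × X) (W := B × B)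
    (fun w => Γ w.1 w.2) γ
  -- almost everywhere facts for the fibre plans
  have hfst : ∀ w : B × B, ∀ᵐ z ∂(Γ w.1 w.2), p z.1 = w.1 := by
    intro w
    have h1 : (Γ w.1 w.2).map Prod.fst {x | p x ≠ w.1} = 0 := by
      rw [hΓ1]; exact hp.fibre _
    rw [Measure.map_apply measurable_fst (isOpen_ne_fun hpc continuous_const).measurableSet] at h1
    rw [ae_iff]
    exact h1
  have hsnd : ∀ w : B × B, ∀ᵐ z ∂(Γ w.1 w.2), p z.2 = w.2 := by
    intro w
    have h1 : (Γ w.1 w.2).map Prod.snd {x | p x ≠ w.2} = 0 := by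
      have h2 := hΓ2 w.1 w.2 {x | p x ≠ w.2}
      rw [Measure.smul_apply, hp.fibre, smul_zero] at h2
      exact le_antisymm h2 zero_le
    rw [Measure.map_apply measurable_snd (isOpen_ne_fun hpc continuous_const).measurableSet] at h1
    rw [ae_iff]
    exact h1
  have hdist : ∀ w : B × B, ∀ᵐ z ∂(Γ w.1 w.2), dist z.1 z.2 = dist w.1 w.2 := by
    intro w
    rw [ae_iff]
    exact hΓ4 _ _
  have hκm : Measurable fun b => (κ b : Measure X) := measurable_of_continuous hp.cont
  have hκ2 : Measurable fun w : B × B => (κ w.2 : Measure X) := hκm.comp measurable_snd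
  have hprodc : Continuous fun w : B × B => (κ w.1).prod (diracProba w.2) :=
    ProbabilityMeasure.continuous_prod.comp
      ((hp.cont.comp continuous_fst).prodMk (continuous_diracProba.comp continuous_snd))
  have hprodm : Measurable fun w : B × B =>
      (κ w.1 : Measure X).prod (Measure.dirac w.2) := measurable_of_continuous hprodc
  refine ⟨L, hLp, ?_, ?_, ?_, ?_⟩
  · -- distances
    let φ : (X × X) →ᵇ ℝ≥0 := BoundedContinuousFunction.mkOfCompact
      ⟨fun z => Real.toNNReal |dist z.1 z.2 - dist (p z.1) (p z.2)|, by fun_prop⟩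
    have h1 : ∫⁻ z, φ z ∂L ≤ ∫⁻ _, 0 ∂γ := by
      refine hL1 φ (fun _ => 0) continuous_const ⟨0, ENNReal.zero_ne_top, fun _ => le_rfl⟩ ?_
      intro w
      refine le_of_eq ?_
      rw [lintegral_eq_zero_iff (by fun_prop)]
      filter_upwards [hfst w, hsnd w, hdist w] with z h1 h2 h3
      simp only [φ, BoundedContinuousFunction.mkOfCompact_apply, ContinuousMap.coe_mk, h1, h2, h3,
        sub_self, abs_zero, Real.toNNReal_zero, ENNReal.coe_zero, Pi.zero_apply]
    rw [lintegral_zero] at h1
    have h2 : ∫⁻ z, φ z ∂L = 0 := le_antisymm h1 zero_le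
    rw [lintegral_eq_zero_iff (by fun_prop)] at h2
    rw [← ae_iff (p := fun z : X × X => dist z.1 z.2 = dist (p z.1) (p z.2))]
    filter_upwards [h2] with z hz
    simp only [φ, BoundedContinuousFunction.mkOfCompact_apply, ContinuousMap.coe_mk,
      Pi.zero_apply, ENNReal.coe_eq_zero, Real.toNNReal_eq_zero] at hz
    have := abs_nonpos_iff.1 hz
    linarith
  · -- the joint law of the point and of the image of the second point
    have hprobb : IsProbabilityMeasure
        (γ.bind fun w => (κ w.1 : Measure X).prod (Measure.dirac w.2)) := by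
      refine ⟨?_⟩
      rw [Measure.bind_apply MeasurableSet.univ hprodm.aemeasurable]
      simp
    have hgm : Measurable fun z : X × X => (z.1, p z.2) := by
      exact measurable_fst.prodMk (hpc.measurable.comp measurable_snd)
    have : IsProbabilityMeasure (L.map fun z : X × X => (z.1, p z.2)) :=
      Measure.isProbabilityMeasure_map hgm.aemeasurable
    refine ext_of_forall_lintegral_eq_of_IsFiniteMeasure fun ψ => ?_
    have hψm : Measurable fun z => (ψ z : ℝ≥0∞) := by fun_prop
    rw [lintegral_map hψm hgm, Measure.lintegral_bind hprodm.aemeasurable hψm.aemeasurable]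
    let φ : (X × X) →ᵇ ℝ≥0 := BoundedContinuousFunction.mkOfCompact
      ⟨fun z => ψ (z.1, p z.2), by fun_prop⟩
    have hFc : Continuous fun w : B × B =>
        ∫⁻ z, ψ z ∂((κ w.1 : Measure X).prod (Measure.dirac w.2)) :=
      (ProbabilityMeasure.continuous_lintegral_boundedContinuousFunction ψ).comp hprodc
    obtain ⟨C, hC, hCb⟩ := exists_bound ψ
    have hkey : ∀ w : B × B, ∫⁻ z, φ z ∂(Γ w.1 w.2) =
        ∫⁻ z, ψ z ∂((κ w.1 : Measure X).prod (Measure.dirac w.2)) := by
      intro w
      rw [lintegral_prod _ hψm.aemeasurable]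
      have h1 : ∀ x : X, ∫⁻ b, ψ (x, b) ∂(Measure.dirac w.2) = ψ (x, w.2) := by
        intro x
        rw [lintegral_dirac' _ (by fun_prop)]
      simp only [h1]
      rw [← hΓ1 w.1 w.2, lintegral_map (by fun_prop) measurable_fst]
      refine lintegral_congr_ae ?_
      filter_upwards [hsnd w] with z hz
      simp only [φ, BoundedContinuousFunction.mkOfCompact_apply, ContinuousMap.coe_mk, hz]
    refine le_antisymm ?_ ?_
    · exact hL1 φ _ hFc ⟨C, hC, fun w => hCb _ inferInstance⟩
        fun w => (hkey w).le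
    · have := hL2 φ _ 1 ENNReal.one_ne_top hFc
        ⟨C, hC, fun w => hCb _ inferInstance⟩
        (fun w => by rw [one_mul]; exact (hkey w).ge)
      rwa [one_mul] at this
  · -- upper bound for the second marginal
    have h1 : IsFiniteMeasure (A • γ.bind fun w => (κ w.2 : Measure X)) := by
      refine ⟨?_⟩
      rw [Measure.smul_apply, Measure.bind_apply MeasurableSet.univ hκ2.aemeasurable]
      simp only [measure_univ, lintegral_const, smul_eq_mul, mul_one]
      exact hA.lt_top
    have h2 : IsProbabilityMeasure (L.map Prod.snd) :=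
      Measure.isProbabilityMeasure_map measurable_snd.aemeasurable
    refine le_of_forall_lintegral_le fun θ => ?_
    have hθm : Measurable fun z => (θ z : ℝ≥0∞) := by fun_prop
    rw [lintegral_map hθm measurable_snd, lintegral_smul_measure,
      Measure.lintegral_bind hκ2.aemeasurable hθm.aemeasurable, smul_eq_mul,
      ← lintegral_const_mul' _ _ hA]
    let φ : (X × X) →ᵇ ℝ≥0 := BoundedContinuousFunction.mkOfCompact
      ⟨fun z => θ z.2, by fun_prop⟩
    obtain ⟨C, hC, hCb⟩ := exists_bound θ
    have hFc : Continuous fun w : B × B => A * ∫⁻ z, θ z ∂(κ w.2 : Measure X) :=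
      (ENNReal.continuous_const_mul hA).comp
        ((ProbabilityMeasure.continuous_lintegral_boundedContinuousFunction θ).comp
          (hp.cont.comp continuous_snd))
    refine hL1 φ _ hFc ⟨A * C, ENNReal.mul_ne_top hA hC, fun w => by gcongr; exact hCb _ inferInstance⟩ ?_
    intro w
    have h3 : ∫⁻ z, φ z ∂(Γ w.1 w.2) = ∫⁻ x, θ x ∂((Γ w.1 w.2).map Prod.snd) := by
      rw [lintegral_map hθm measurable_snd]
      rfl
    rw [h3]
    refine (lintegral_mono' (hΓ2 w.1 w.2) le_rfl).trans ?_
    rw [lintegral_smul_measure, smul_eq_mul]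
  · -- lower bound for the second marginal
    have h1 : IsFiniteMeasure (γ.bind fun w => (κ w.2 : Measure X)) := by
      refine ⟨?_⟩
      rw [Measure.bind_apply MeasurableSet.univ hκ2.aemeasurable]
      simp
    have h2 : IsProbabilityMeasure (L.map Prod.snd) :=
      Measure.isProbabilityMeasure_map measurable_snd.aemeasurable
    have h2' : IsFiniteMeasure (A • L.map Prod.snd) := by
      refine ⟨?_⟩
      rw [Measure.smul_apply, measure_univ, smul_eq_mul, mul_one]
      exact hA.lt_top
    refine le_of_forall_lintegral_le fun θ => ?_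
    have hθm : Measurable fun z => (θ z : ℝ≥0∞) := by fun_prop
    rw [lintegral_smul_measure, lintegral_map hθm measurable_snd,
      Measure.lintegral_bind hκ2.aemeasurable hθm.aemeasurable, smul_eq_mul]
    let φ : (X × X) →ᵇ ℝ≥0 := BoundedContinuousFunction.mkOfCompact
      ⟨fun z => θ z.2, by fun_prop⟩
    obtain ⟨C, hC, hCb⟩ := exists_bound θ
    have hFc : Continuous fun w : B × B => ∫⁻ z, θ z ∂(κ w.2 : Measure X) :=
      (ProbabilityMeasure.continuous_lintegral_boundedContinuousFunction θ).comp
        (hp.cont.comp continuous_snd)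
    refine hL2 φ _ A hA hFc ⟨C, hC, fun w => hCb _ inferInstance⟩ ?_
    intro w
    have h3 : ∫⁻ z, φ z ∂(Γ w.1 w.2) = ∫⁻ x, θ x ∂((Γ w.1 w.2).map Prod.snd) := by
      rw [lintegral_map hθm measurable_snd]
      rfl
    rw [h3]
    refine (lintegral_mono' (hΓ3 w.1 w.2) le_rfl).trans ?_
    rw [lintegral_smul_measure, smul_eq_mul]

end Lift

/-! ### The main theorem -/

section Main

set_option linter.unusedSectionVars false

variable {X : Type u} [MetricSpace X] [CompactSpace X] [MeasurableSpace X] [BorelSpace X]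
variable {B : Type v} [MetricSpace B] [CompactSpace B] [MeasurableSpace B] [BorelSpace B]
variable {p : X → B} {κ : B → ProbabilityMeasure X} {A : ℝ≥0∞}

/-- A continuous function on `X` which for almost all `b` is almost surely constant on the fibre
over `b` is constant on all fibres. -/
theorem const_on_fibres (hp : IsSubmersion p κ A) {mB : Measure B} [mB.IsOpenPosMeasure]
    {γ : Measure (B × B)} {c : ℝ≥0∞} (hγ : mB ≤ c • γ.map Prod.fst)
    {h : X → ℝ} (hh : Continuous h)
    (hae : ∀ᵐ w ∂γ, ∃ a : ℝ, ∀ᵐ x ∂(κ w.1 : Measure X), h x = a) :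
    ∀ x y, p x = p y → h x = h y := by
  let V : B → ℝ := fun b => ∫ x, h x ^ 2 ∂(κ b : Measure X) - (∫ x, h x ∂(κ b : Measure X)) ^ 2
  have hint : ∀ (g : X → ℝ), Continuous g → ∀ b, Integrable g (κ b : Measure X) :=
    fun g hg b => hg.integrable_of_hasCompactSupport (HasCompactSupport.of_compactSpace _)
  have hc1 : ∀ (g : X → ℝ), Continuous g → Continuous fun b => ∫ x, g x ∂(κ b : Measure X) :=
    fun g hg => (ProbabilityMeasure.continuous_integral_continuousMap
      (⟨g, hg⟩ : C(X, ℝ))).comp hp.cont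
  have hV : Continuous V := (hc1 _ (hh.pow 2)).sub ((hc1 _ hh).pow 2)
  have hV0 : V =ᵐ[mB] fun _ => 0 := by
    have h0 : ∀ᵐ w ∂γ, V w.1 = 0 := by
      filter_upwards [hae] with w hb
      obtain ⟨a, ha⟩ := hb
      have h1 : ∫ x, h x ∂(κ w.1 : Measure X) = a := by
        rw [integral_congr_ae (g := fun _ => a) ha]; simp
      have h2 : ∫ x, h x ^ 2 ∂(κ w.1 : Measure X) = a ^ 2 := by
        rw [integral_congr_ae (g := fun _ => a ^ 2) (ha.mono fun x hx => by simp [hx])]; simp
      simp only [V, h1, h2, sub_self]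
    have hms : MeasurableSet {b | V b = 0} :=
      (isClosed_eq hV continuous_const).measurableSet
    have h1 : ∀ᵐ b ∂(γ.map Prod.fst), V b = 0 :=
      (ae_map_iff measurable_fst.aemeasurable hms).2 h0
    have h2 : ∀ᵐ b ∂(c • γ.map Prod.fst), V b = 0 := Measure.ae_smul_measure h1 c
    exact (Measure.absolutelyContinuous_of_le hγ).ae_le h2
  have hVz : V = fun _ => 0 := (Continuous.ae_eq_iff_eq mB hV continuous_const).1 hV0
  have key : ∀ x, h x = ∫ y, h y ∂(κ (p x) : Measure X) := by
    intro x
    set a := ∫ y, h y ∂(κ (p x) : Measure X) with ha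
    have h0 : ∫ y, (h y - a) ^ 2 ∂(κ (p x) : Measure X) = 0 := by
      have h1 : V (p x) = 0 := congrFun hVz (p x)
      have h2 : ∀ y, (h y - a) ^ 2 = h y ^ 2 - 2 * a * h y + a ^ 2 := fun y => by ring
      simp_rw [h2]
      have i1 : Integrable (fun y => h y ^ 2) (κ (p x) : Measure X) := hint _ (hh.pow 2) _
      have i2 : Integrable (fun y => 2 * a * h y) (κ (p x) : Measure X) :=
        (hint _ hh _).const_mul _
      rw [integral_add (f := fun y => h y ^ 2 - 2 * a * h y) (g := fun _ => a ^ 2)
        (i1.sub i2) (integrable_const _),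
        integral_sub (f := fun y => h y ^ 2) (g := fun y => 2 * a * h y) i1 i2,
        integral_const_mul, integral_const, probReal_univ, one_smul, ← ha]
      simp only [V, ← ha] at h1
      linarith
    by_contra hne
    have hc2 : Continuous fun y => (h y - a) ^ 2 := (hh.sub continuous_const).pow 2
    rw [integral_eq_zero_iff_of_nonneg (fun y => sq_nonneg _) (hint _ hc2 _)] at h0
    have hopen : IsOpen {y | h y ≠ a} := isOpen_ne_fun hh continuous_const
    refine hp.full x {y | h y ≠ a} hopen hne ?_
    have h3 : ∀ᵐ y ∂(κ (p x) : Measure X), h y = a := by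
      filter_upwards [h0] with y hy
      have : (h y - a) ^ 2 = 0 := hy
      have := pow_eq_zero_iff (two_ne_zero) |>.1 this
      linarith
    exact ae_iff.1 h3
  intro x y hxy
  rw [key x, key y, hxy]

/-- Every optimal plan on `B` between measures with bounded densities is given by a continuous
map. -/
theorem induced_on_base (hA : A ≠ ∞) (hp : IsSubmersion p κ A)
    {mX : Measure X} [IsProbabilityMeasure mX] {mB : Measure B} [IsFiniteMeasure mB]
    [mB.IsOpenPosMeasure]
    (hle : mX ≤ A • mB.bind fun b => (κ b : Measure X))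
    (hge : (mB.bind fun b => (κ b : Measure X)) ≤ A • mX)
    (hX : ∀ ν : Measure X, IsProbabilityMeasure ν → HasBoundedDensity mX ν →
      HasContinuousOptimalMap mX ν)
    {μ ν : Measure B} [IsProbabilityMeasure μ] [IsProbabilityMeasure ν]
    (hμ : HasBoundedDensity mB μ) (hν : HasBoundedDensity mB ν)
    {γ : Measure (B × B)} (hγ : IsCoupling μ ν γ)
    (hopt : ∀ η : Measure (B × B), IsCoupling μ ν η → cost γ ≤ cost η) :
    ∃ T : B → B, Continuous T ∧ γ = graphPlan μ T := by
  have hpc := hp.continuous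
  have hpm : Measurable p := hpc.measurable
  have hγp : IsProbabilityMeasure γ := isProbabilityMeasure_of_coupling hγ
  have hκm : Measurable fun b => (κ b : Measure X) := measurable_of_continuous hp.cont
  have hκ1 : Measurable fun w : B × B => (κ w.1 : Measure X) := hκm.comp measurable_fst
  have hκ2 : Measurable fun w : B × B => (κ w.2 : Measure X) := hκm.comp measurable_snd
  have hprodc : Continuous fun w : B × B => (κ w.1).prod (diracProba w.2) :=
    ProbabilityMeasure.continuous_prod.comp
      ((hp.cont.comp continuous_fst).prodMk (continuous_diracProba.comp continuous_snd))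
  have hprodm : Measurable fun w : B × B =>
      (κ w.1 : Measure X).prod (Measure.dirac w.2) := measurable_of_continuous hprodc
  obtain ⟨c, hc, -, hc1, hc2⟩ := hμ.exists_le
  obtain ⟨c', hc', -, hc1', hc2'⟩ := hν.exists_le
  obtain ⟨g, hgp, hgd, hgj, hgs1, hgs2⟩ := exists_lift hA hp γ
  have hjm : Measurable fun z : X × X => (z.1, p z.2) :=
    measurable_fst.prodMk (hpm.comp measurable_snd)
  have hppm : Measurable fun z : X × X => (p z.1, p z.2) :=
    (hpm.comp measurable_fst).prodMk (hpm.comp measurable_snd)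
  have hppc : Continuous fun z : X × X => (p z.1, p z.2) := by fun_prop
  -- the marginals
  have hfst : g.map Prod.fst = μ.bind fun b => (κ b : Measure X) := by
    have h1 : g.map Prod.fst = (g.map fun z : X × X => (z.1, p z.2)).map Prod.fst := by
      rw [Measure.map_map measurable_fst hjm]; rfl
    rw [h1, hgj, ← hγ.1]
    refine Measure.ext fun s hs => ?_
    rw [Measure.map_apply measurable_fst hs,
      Measure.bind_apply (measurable_fst hs) hprodm.aemeasurable,
      Measure.bind_apply hs hκm.aemeasurable, lintegral_map _ measurable_fst]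
    · refine lintegral_congr fun w => ?_
      rw [← prod_univ, Measure.prod_prod, measure_univ, mul_one]
    · exact (Measure.measurable_coe hs).comp hκm
  have hsnd : (γ.bind fun w => (κ w.2 : Measure X)) = ν.bind fun b => (κ b : Measure X) := by
    rw [← hγ.2]
    refine Measure.ext fun s hs => ?_
    rw [Measure.bind_apply hs hκ2.aemeasurable, Measure.bind_apply hs hκm.aemeasurable,
      lintegral_map _ measurable_snd]
    exact (Measure.measurable_coe hs).comp hκm
  rw [hsnd] at hgs1 hgs2
  have hmono : ∀ (μ₁ μ₂ : Measure B), μ₁ ≤ μ₂ →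
      (μ₁.bind fun b => (κ b : Measure X)) ≤ μ₂.bind fun b => (κ b : Measure X) := by
    intro μ₁ μ₂ h
    refine Measure.le_iff.2 fun s hs => ?_
    rw [Measure.bind_apply hs hκm.aemeasurable, Measure.bind_apply hs hκm.aemeasurable]
    exact lintegral_mono' h le_rfl
  have hsmul : ∀ (a : ℝ≥0∞) (μ₁ : Measure B),
      ((a • μ₁).bind fun b => (κ b : Measure X)) = a • μ₁.bind fun b => (κ b : Measure X) := by
    intro a μ₁
    refine Measure.ext fun s hs => ?_
    rw [Measure.bind_apply hs hκm.aemeasurable, Measure.smul_apply,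
      Measure.bind_apply hs hκm.aemeasurable, lintegral_smul_measure]
  have hg1p : IsProbabilityMeasure (g.map Prod.fst) :=
    Measure.isProbabilityMeasure_map measurable_fst.aemeasurable
  have hg2p : IsProbabilityMeasure (g.map Prod.snd) :=
    Measure.isProbabilityMeasure_map measurable_snd.aemeasurable
  have hb1 : HasBoundedDensity mX (g.map Prod.fst) := by
    refine hasBoundedDensity_of_le (c := c * A) (ENNReal.mul_ne_top hc hA) ?_ ?_
    · rw [hfst]
      calc (μ.bind fun b => (κ b : Measure X))
          ≤ (c • mB).bind fun b => (κ b : Measure X) := hmono _ _ hc1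
        _ = c • mB.bind fun b => (κ b : Measure X) := hsmul _ _
        _ ≤ c • (A • mX) := by gcongr
        _ = (c * A) • mX := by rw [smul_smul]
    · rw [hfst]
      calc mX ≤ A • mB.bind fun b => (κ b : Measure X) := hle
        _ ≤ A • (c • μ).bind fun b => (κ b : Measure X) := by gcongr; exact hmono _ _ hc2
        _ = A • (c • μ.bind fun b => (κ b : Measure X)) := by rw [hsmul]
        _ = (c * A) • μ.bind fun b => (κ b : Measure X) := by rw [smul_smul, mul_comm]
  have hb2 : HasBoundedDensity mX (g.map Prod.snd) := by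
    refine hasBoundedDensity_of_le (c := A * c' * A)
      (ENNReal.mul_ne_top (ENNReal.mul_ne_top hA hc') hA) ?_ ?_
    · calc g.map Prod.snd ≤ A • ν.bind fun b => (κ b : Measure X) := hgs1
        _ ≤ A • (c' • mB).bind fun b => (κ b : Measure X) := by gcongr; exact hmono _ _ hc1'
        _ = A • (c' • mB.bind fun b => (κ b : Measure X)) := by rw [hsmul]
        _ ≤ A • (c' • (A • mX)) := by gcongr
        _ = (A * c' * A) • mX := by rw [smul_smul, smul_smul]
    · calc mX ≤ A • mB.bind fun b => (κ b : Measure X) := hle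
        _ ≤ A • (c' • ν).bind fun b => (κ b : Measure X) := by gcongr; exact hmono _ _ hc2'
        _ = A • (c' • ν.bind fun b => (κ b : Measure X)) := by rw [hsmul]
        _ ≤ A • (c' • (A • g.map Prod.snd)) := by gcongr
        _ = (A * c' * A) • g.map Prod.snd := by rw [smul_smul, smul_smul]
  -- the image plan
  have hpp : g.map (fun z : X × X => (p z.1, p z.2)) = γ := by
    have hpid : Measurable fun q : X × B => (p q.1, q.2) :=
      (hpm.comp measurable_fst).prodMk measurable_snd
    have h1 : g.map (fun z : X × X => (p z.1, p z.2)) =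
        (g.map fun z : X × X => (z.1, p z.2)).map fun q : X × B => (p q.1, q.2) := by
      rw [Measure.map_map hpid hjm]; rfl
    rw [h1, hgj]
    refine Measure.ext fun s hs => ?_
    rw [Measure.map_apply hpid hs, Measure.bind_apply (hpid hs) hprodm.aemeasurable]
    rw [← lintegral_indicator_one hs]
    refine lintegral_congr fun w => ?_
    have h2 : ∀ᵐ q ∂((κ w.1 : Measure X).prod (Measure.dirac w.2)), (p q.1, q.2) = w := by
      have ha : ∀ᵐ q ∂((κ w.1 : Measure X).prod (Measure.dirac w.2)), p q.1 = w.1 := by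
        have : ∀ᵐ x ∂(κ w.1 : Measure X), p x = w.1 := by
          rw [ae_iff]; exact hp.fibre _
        exact Measure.quasiMeasurePreserving_fst.ae this
      have hb : ∀ᵐ q ∂((κ w.1 : Measure X).prod (Measure.dirac w.2)), q.2 = w.2 := by
        have : ∀ᵐ b ∂(Measure.dirac w.2), b = w.2 := by
          rw [ae_dirac_eq]; exact rfl
        exact Measure.quasiMeasurePreserving_snd.ae this
      filter_upwards [ha, hb] with q h3 h4
      rw [h3, h4]
    by_cases hw : w ∈ s
    · rw [indicator_of_mem hw, Pi.one_apply]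
      rw [← prob_compl_eq_zero_iff (hpid hs)]
      have h5 : ∀ᵐ q ∂((κ w.1 : Measure X).prod (Measure.dirac w.2)),
          q ∈ (fun q : X × B => (p q.1, q.2)) ⁻¹' s := by
        filter_upwards [h2] with q hq
        rw [mem_preimage, hq]; exact hw
      exact ae_iff.1 h5
    · rw [indicator_of_notMem hw]
      have h5 : ∀ᵐ q ∂((κ w.1 : Measure X).prod (Measure.dirac w.2)),
          q ∉ (fun q : X × B => (p q.1, q.2)) ⁻¹' s := by
        filter_upwards [h2] with q hq
        rw [mem_preimage, hq]; exact hw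
      have h6 := ae_iff.1 h5
      simp only [not_not] at h6
      exact h6
  have hcostpp : ∀ η : Measure (X × X), IsFiniteMeasure η →
      cost (η.map fun z : X × X => (p z.1, p z.2)) ≤ cost η := by
    intro η hη
    unfold cost
    rw [integral_map hppm.aemeasurable continuous_costFun.aestronglyMeasurable]
    refine integral_mono ?_ (integrable_costFun η) ?_
    · exact (continuous_costFun.comp hppc).integrable_of_hasCompactSupport
        (HasCompactSupport.of_compactSpace _)
    · intro z
      have h1 := hp.lip z.1 z.2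
      have h2 : 0 ≤ dist (p z.1) (p z.2) := dist_nonneg
      simp only
      have : dist (p z.1) (p z.2) ^ 2 ≤ dist z.1 z.2 ^ 2 := pow_le_pow_left₀ h2 h1 2
      linarith
  have hcostg : cost g = cost γ := by
    rw [← hpp]
    unfold cost
    rw [integral_map hppm.aemeasurable continuous_costFun.aestronglyMeasurable]
    refine integral_congr_ae ?_
    have : ∀ᵐ z ∂g, dist z.1 z.2 = dist (p z.1) (p z.2) := by
      rw [ae_iff]; exact hgd
    filter_upwards [this] with z hz
    simp only [hz]
  have hopt' : ∀ η : Measure (X × X), IsCoupling (g.map Prod.fst) (g.map Prod.snd) η →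
      cost g ≤ cost η := by
    intro η hη
    have hηp : IsProbabilityMeasure η := isProbabilityMeasure_of_coupling hη
    rw [hcostg]
    refine (hopt _ ?_).trans (hcostpp η inferInstance)
    constructor
    · rw [Measure.map_map measurable_fst hppm]
      have h1 : (Prod.fst ∘ fun z : X × X => (p z.1, p z.2)) = p ∘ Prod.fst := rfl
      rw [h1, ← Measure.map_map hpm measurable_fst, hη.1, Measure.map_map hpm measurable_fst,
        ← h1, ← Measure.map_map measurable_fst hppm, hpp]
      exact hγ.1
    · rw [Measure.map_map measurable_snd hppm]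
      have h1 : (Prod.snd ∘ fun z : X × X => (p z.1, p z.2)) = p ∘ Prod.snd := rfl
      rw [h1, ← Measure.map_map hpm measurable_snd, hη.2, Measure.map_map hpm measurable_snd,
        ← h1, ← Measure.map_map measurable_snd hppm, hpp]
      exact hγ.2
  obtain ⟨R, hR, hgR⟩ := induced_of_optimal hb1 hb2 hX ⟨rfl, rfl⟩ hopt'
  have hRnull : g {z | z.2 ≠ R z.1} = 0 := by
    rw [hgR]; exact graphPlan_null _ hR
  -- on almost all fibres the function `p ∘ R` is constant
  have hq : Continuous fun x => p (R x) := hpc.comp hR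
  have haeγ : ∀ᵐ w ∂γ, ∀ᵐ x ∂(κ w.1 : Measure X), p (R x) = w.2 := by
    let S : Set (X × B) := {q | q.2 ≠ p (R q.1)}
    have hSm : MeasurableSet S := (isOpen_ne_fun continuous_snd
      (hq.comp continuous_fst)).measurableSet
    have h1 : (g.map fun z : X × X => (z.1, p z.2)) S = 0 := by
      rw [Measure.map_apply hjm hSm]
      refine measure_mono_null ?_ hRnull
      intro z hz hz'
      exact hz (by simp only [hz'])
    have hm : Measurable fun w : B × B =>
        ((κ w.1 : Measure X).prod (Measure.dirac w.2)) S :=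
      (Measure.measurable_coe hSm).comp hprodm
    rw [hgj, Measure.bind_apply hSm hprodm.aemeasurable, lintegral_eq_zero_iff hm] at h1
    filter_upwards [h1] with w hw
    have hw' : (κ w.1 : Measure X).prod (Measure.dirac w.2) S = 0 := hw
    have h2 : (κ w.1 : Measure X) {x | ¬ p (R x) = w.2} = 0 := by
      have h3 : ({x | ¬ p (R x) = w.2} : Set X) ×ˢ ({w.2} : Set B) ⊆ S := by
        rintro ⟨x, b⟩ ⟨hx, hb⟩
        have hb' : b = w.2 := hb
        subst hb'
        exact fun h => hx h.symm
      have h4 := measure_mono_null h3 hw'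
      rw [Measure.prod_prod, Measure.dirac_apply' _ (measurableSet_singleton _)] at h4
      simpa using h4
    exact ae_iff.2 h2
  have hμ' : mB ≤ c • γ.map Prod.fst := by rw [hγ.1]; exact hc2
  have hfib : ∀ x y, p x = p y → p (R x) = p (R y) := by
    intro x y hxy
    have h1 := const_on_fibres hp hμ' (h := fun z => dist (p (R z)) (p (R x)))
      (hq.dist continuous_const)
      (haeγ.mono fun w hw => ⟨dist w.2 (p (R x)), hw.mono fun z hz => by rw [hz]⟩) x y hxy
    simp only [dist_self] at h1
    exact (dist_eq_zero.1 h1.symm).symm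
  choose s hs using hp.surjective
  have hTp : ∀ x, p (R (s (p x))) = p (R x) := fun x => hfib _ _ (hs (p x))
  have hqm : IsQuotientMap p := hpc.isClosedMap.isQuotientMap hpc hp.surjective
  have hTc : Continuous fun b => p (R (s b)) := by
    rw [hqm.continuous_iff]
    have : ((fun b => p (R (s b))) ∘ p) = fun x => p (R x) := funext hTp
    rw [this]
    exact hq
  refine ⟨fun b => p (R (s b)), hTc, eq_graphPlan_of_null hTc hγ.1 ?_⟩
  have hms : MeasurableSet {z : B × B | z.2 ≠ p (R (s z.1))} :=
    (isOpen_ne_fun continuous_snd (hTc.comp continuous_fst)).measurableSet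
  rw [← hpp, Measure.map_apply hppm hms]
  refine measure_mono_null ?_ hRnull
  intro z hz hz'
  apply hz
  simp only
  rw [hTp, hz']

/-- **Descent of the continuity property.** -/
theorem descent (hA : A ≠ ∞) (hp : IsSubmersion p κ A)
    {mX : Measure X} [IsProbabilityMeasure mX] {mB : Measure B} [IsFiniteMeasure mB]
    [mB.IsOpenPosMeasure]
    (hle : mX ≤ A • mB.bind fun b => (κ b : Measure X))
    (hge : (mB.bind fun b => (κ b : Measure X)) ≤ A • mX)
    (hX : ∀ ν : Measure X, IsProbabilityMeasure ν → HasBoundedDensity mX ν →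
      HasContinuousOptimalMap mX ν)
    {μ ν : Measure B} [IsProbabilityMeasure μ] [IsProbabilityMeasure ν]
    (hμ : HasBoundedDensity mB μ) (hν : HasBoundedDensity mB ν) :
    HasContinuousOptimalMap μ ν := by
  obtain ⟨γ₀, hγ₀, hopt₀⟩ := exists_optimal μ ν
  obtain ⟨T, hT, hγT⟩ := induced_on_base hA hp hle hge hX hμ hν hγ₀ hopt₀
  refine ⟨T, hT, ?_, ?_⟩
  · rw [← graphPlan_snd μ hT, ← hγT]
    exact hγ₀.2
  · intro γ hγ
    rw [← hγT]
    refine ⟨hopt₀ γ hγ, fun heq => ?_⟩
    have hp0 : IsProbabilityMeasure γ₀ := isProbabilityMeasure_of_coupling hγ₀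
    have hp1 : IsProbabilityMeasure γ := isProbabilityMeasure_of_coupling hγ
    -- the average of the two plans
    set h : ℝ≥0∞ := 2⁻¹ with hh
    have hht : h ≠ ∞ := by simp [hh]
    have hhalf : h + h = 1 := ENNReal.inv_two_add_inv_two
    have hf0 : IsFiniteMeasure (h • γ₀) := by
      refine ⟨?_⟩
      rw [Measure.smul_apply, measure_univ, smul_eq_mul, mul_one]; exact hht.lt_top
    have hf1 : IsFiniteMeasure (h • γ) := by
      refine ⟨?_⟩
      rw [Measure.smul_apply, measure_univ, smul_eq_mul, mul_one]; exact hht.lt_top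
    have hc : IsCoupling μ ν (h • γ₀ + h • γ) := by
      constructor
      · rw [Measure.map_add _ _ measurable_fst, Measure.map_smul, Measure.map_smul, hγ₀.1, hγ.1,
          ← add_smul, hhalf, one_smul]
      · rw [Measure.map_add _ _ measurable_snd, Measure.map_smul, Measure.map_smul, hγ₀.2, hγ.2,
          ← add_smul, hhalf, one_smul]
    have hcost : cost (h • γ₀ + h • γ) = cost γ₀ := by
      rw [cost_add, cost_smul, cost_smul, heq, ← add_mul, ← ENNReal.toReal_add hht hht, hhalf,
        ENNReal.toReal_one, one_mul]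
    obtain ⟨T', hT', hγT'⟩ := induced_on_base hA hp hle hge hX hμ hν hc
      (fun η hη => by rw [hcost]; exact hopt₀ η hη)
    have hnull : (h • γ₀ + h • γ) {z | z.2 ≠ T' z.1} = 0 := by
      rw [hγT']; exact graphPlan_null _ hT'
    rw [Measure.add_apply, Measure.smul_apply, Measure.smul_apply] at hnull
    have hh0 : h ≠ 0 := by simp [hh]
    simp only [smul_eq_mul, add_eq_zero, mul_eq_zero, hh0, false_or] at hnull
    rw [eq_graphPlan_of_null hT' hγ.1 hnull.2, eq_graphPlan_of_null hT' hγ₀.1 hnull.1]

end Main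

end Pool.Agent.Lib.MP_eae870_an
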