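import Mathlib

/-! # Monotone rearrangement on compact intervals -/

set_option autoImplicit false

open MeasureTheory Set Topology Filter
open scoped ENNReal NNReal

namespace Pool.Agent.Lib.MP_eae870_an

universe v

section Order

variable {B : Type v} [LinearOrder B] [TopologicalSpace B] [OrderTopology B]
  [SecondCountableTopology B] [MeasurableSpace B] [BorelSpace B]

theorem continuous_measure_Iic (μ : Measure B) [IsFiniteMeasure μ] [NullSingletonClass μ] :
    Continuous fun t => μ.real (Iic t) := by
  have h1 : ∀ t, μ.real (Iic t) = ∫ x, (Iic t).indicator (fun _ => (1 : ℝ)) x ∂μ := by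
    intro t
    rw [integral_indicator measurableSet_Iic]
    simp
  simp_rw [h1]
  rw [continuous_iff_continuousAt]
  intro t0
  refine continuousAt_of_dominated (bound := fun _ => 1) ?_ ?_ ?_ ?_
  · exact Eventually.of_forall fun t =>
      (measurable_const.indicator measurableSet_Iic).aestronglyMeasurable
  · refine Eventually.of_forall fun t => Eventually.of_forall fun x => ?_
    by_cases hx : x ∈ Iic t
    · rw [indicator_of_mem hx]; simp
    · rw [indicator_of_notMem hx]; simp
  · exact integrable_const _
  · have h2 : ∀ᵐ x ∂μ, x ≠ t0 := by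
      rw [ae_iff]; simp
    filter_upwards [h2] with x hx
    rcases lt_or_gt_of_ne hx with h | h
    · have h3 : (fun _ : B => (1 : ℝ)) =ᶠ[𝓝 t0]
          fun t => (Iic t).indicator (fun _ => (1 : ℝ)) x := by
        filter_upwards [Ioi_mem_nhds h] with t ht
        rw [indicator_of_mem (show x ∈ Iic t from le_of_lt ht)]
      exact continuousAt_const.congr h3
    · have h3 : (fun _ : B => (0 : ℝ)) =ᶠ[𝓝 t0]
          fun t => (Iic t).indicator (fun _ => (1 : ℝ)) x := by
        filter_upwards [Iio_mem_nhds h] with t ht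
        rw [indicator_of_notMem (show x ∉ Iic t from not_le.2 ht)]
      exact continuousAt_const.congr h3

/-- Monotone rearrangement. -/
theorem exists_rearrangement [CompactSpace B] [PreconnectedSpace B] [DenselyOrdered B]
    (μ ν : Measure B) [IsProbabilityMeasure μ] [IsProbabilityMeasure ν] [NullSingletonClass μ]
    [ν.IsOpenPosMeasure] :
    ∃ τ : B → B, Continuous τ ∧ Monotone τ ∧ Function.Surjective τ ∧ μ.map τ = ν := by
  have hne : Nonempty B := by
    by_contra h
    rw [not_nonempty_iff] at h
    have h1 : μ univ = 1 := measure_univ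
    have h2 : (univ : Set B) = ∅ := Subsingleton.elim _ _
    rw [h2, measure_empty] at h1
    exact zero_ne_one h1
  obtain ⟨bot, -, hbot⟩ := isCompact_univ.exists_isLeast (univ_nonempty (α := B))
  obtain ⟨top, -, htop⟩ := isCompact_univ.exists_isGreatest (univ_nonempty (α := B))
  have hbot' : ∀ x, bot ≤ x := fun x => hbot (mem_univ x)
  have htop' : ∀ x, x ≤ top := fun x => htop (mem_univ x)
  set F : B → ℝ := fun t => μ.real (Iic t) with hF
  set G : B → ℝ := fun t => ν.real (Iic t) with hG
  set H : B → ℝ := fun t => ν.real (Iio t) with hH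
  have hFc : Continuous F := continuous_measure_Iic μ
  have hFm : Monotone F := fun a b hab => measureReal_mono (Iic_subset_Iic.2 hab)
  have hGm : Monotone G := fun a b hab => measureReal_mono (Iic_subset_Iic.2 hab)
  have hHm : Monotone H := fun a b hab => measureReal_mono (Iio_subset_Iio hab)
  have hHG : ∀ a, H a ≤ G a := fun a => measureReal_mono Iio_subset_Iic_self
  have hGH : ∀ a b, a < b → G a ≤ H b := fun a b hab =>
    measureReal_mono fun x hx => lt_of_le_of_lt hx hab
  have hF0 : F bot = 0 := by
    have : Iic bot = {bot} := by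
      ext x
      simp only [mem_Iic, mem_singleton_iff]
      exact ⟨fun h => le_antisymm h (hbot' x), fun h => h.le⟩
    simp [hF, this, measureReal_def]
  have hF1 : F top = 1 := by
    have : Iic top = univ := by
      ext x; simp [htop' x]
    simp [hF, this]
  have hG1 : G top = 1 := by
    have : Iic top = univ := by
      ext x; simp [htop' x]
    simp [hG, this]
  have hH0 : H bot = 0 := by
    have : Iio bot = ∅ := by
      ext x; simp [hbot' x]
    simp [hH, this]
  have hG01 : ∀ s, G s ∈ Icc (F bot) (F top) := by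
    intro s
    rw [hF0, hF1]
    exact ⟨measureReal_nonneg, by rw [← hG1]; exact hGm (htop' s)⟩
  have hF01 : ∀ s, F s ∈ Icc (0 : ℝ) 1 := by
    intro s
    exact ⟨measureReal_nonneg, by rw [← hF1]; exact hFm (htop' s)⟩
  have hstrict : ∀ s s', s < s' → G s < H s' := by
    intro s s' hss
    have h1 : Iio s' = Iic s ∪ Ioo s s' := by
      ext x
      simp only [mem_Iio, mem_union, mem_Iic, mem_Ioo]
      constructor
      · intro hx
        rcases le_or_gt x s with h | h
        · exact Or.inl h
        · exact Or.inr ⟨h, hx⟩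
      · rintro (h | h)
        · exact lt_of_le_of_lt h hss
        · exact h.2
    have h2 : Disjoint (Iic s) (Ioo s s') := by
      rw [Set.disjoint_left]
      intro x hx hx'
      exact absurd hx'.1 (not_lt.2 hx)
    have h3 : H s' = G s + ν.real (Ioo s s') := by
      simp only [hH, hG]
      rw [h1, measureReal_union h2 measurableSet_Ioo]
    have h4 : 0 < ν (Ioo s s') := isOpen_Ioo.measure_pos ν (nonempty_Ioo.2 hss)
    have h5 : 0 < ν.real (Ioo s s') := ENNReal.toReal_pos h4.ne' (measure_ne_top _ _)
    linarith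
  -- existence of quantiles
  have hex : ∀ c ∈ Icc (0 : ℝ) 1, ∃ s, H s ≤ c ∧ c ≤ G s := by
    intro c hc
    set E : Set B := {s | H s ≤ c} with hE
    have hbE : bot ∈ E := by
      change H bot ≤ c
      rw [hH0]; exact hc.1
    have hEc : IsClosed E := by
      rw [← closure_subset_iff_isClosed]
      intro s hs
      by_cases h : ∃ e ∈ E, s ≤ e
      · obtain ⟨e, he, hse⟩ := h
        exact (hHm hse).trans he
      · push Not at h
        obtain ⟨u, hu1, hu2, hu3⟩ := exists_seq_strictMono_tendsto' (h bot hbE)
        have h1 : ∀ n, G (u n) ≤ c := by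
          intro n
          obtain ⟨e, he1, he2⟩ := mem_closure_iff_nhds.1 hs (Ioi (u n)) (Ioi_mem_nhds (hu2 n).2)
          exact (hGH _ _ he1).trans he2
        have h2 : ⋃ n, Iic (u n) = Iio s := by
          ext x
          simp only [mem_iUnion, mem_Iic, mem_Iio]
          constructor
          · rintro ⟨n, hn⟩
            exact lt_of_le_of_lt hn (hu2 n).2
          · intro hx
            obtain ⟨n, hn⟩ := (hu3.eventually (Ioi_mem_nhds hx)).exists
            exact ⟨n, le_of_lt hn⟩
        have h3 : Tendsto (fun n => ν (Iic (u n))) atTop (𝓝 (ν (Iio s))) := by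
          rw [← h2]
          exact tendsto_measure_iUnion_atTop fun a b hab =>
            Iic_subset_Iic.2 (hu1.monotone hab)
        have h4 : Tendsto (fun n => G (u n)) atTop (𝓝 (H s)) :=
          (ENNReal.tendsto_toReal (measure_ne_top _ _)).comp h3
        exact le_of_tendsto' h4 h1
    obtain ⟨s, hsE, hs⟩ := hEc.isCompact.exists_isGreatest ⟨bot, hbE⟩
    refine ⟨s, hsE, ?_⟩
    by_cases hst : s = top
    · rw [hst, hG1]; exact hc.2
    · have hlt : s < top := lt_of_le_of_ne (htop' s) hst
      obtain ⟨u, hu1, hu2, hu3⟩ := exists_seq_strictAnti_tendsto' hlt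
      have h1 : ∀ n, c ≤ H (u n) := by
        intro n
        by_contra hn
        exact absurd (hs (le_of_lt (not_le.1 hn))) (not_le.2 (hu2 n).1)
      have h2 : ⋂ n, Iio (u n) = Iic s := by
        ext x
        simp only [mem_iInter, mem_Iio, mem_Iic]
        constructor
        · intro hx
          exact ge_of_tendsto' hu3 fun n => (hx n).le
        · intro hx n
          exact lt_of_le_of_lt hx (hu2 n).1
      have h3 : Tendsto (fun n => ν (Iio (u n))) atTop (𝓝 (ν (Iic s))) := by
        rw [← h2]
        exact tendsto_measure_iInter_atTop (fun n => measurableSet_Iio.nullMeasurableSet)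
          (fun a b hab => Iio_subset_Iio (hu1.antitone hab)) ⟨0, measure_ne_top _ _⟩
      have h4 : Tendsto (fun n => H (u n)) atTop (𝓝 (G s)) :=
        (ENNReal.tendsto_toReal (measure_ne_top _ _)).comp h3
      exact ge_of_tendsto' h4 h1
  choose τ hτ1 hτ2 using fun t => hex (F t) (hF01 t)
  have key : ∀ t s, τ t ≤ s ↔ F t ≤ G s := by
    intro t s
    constructor
    · intro h
      exact (hτ2 t).trans (hGm h)
    · intro h
      by_contra hlt
      have h1 := hstrict s (τ t) (not_le.1 hlt)
      have h2 := hτ1 t
      linarith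
  have hτm : Monotone τ := by
    intro t t' htt
    rw [key]
    exact (hFm htt).trans (hτ2 t')
  have hIVT : ∀ s, ∃ t, F t = G s := fun s => intermediate_value_univ bot top hFc (hG01 s)
  have hτs : Function.Surjective τ := by
    intro s
    obtain ⟨t, ht⟩ := hIVT s
    refine ⟨t, le_antisymm ((key t s).2 ht.le) ?_⟩
    by_contra hlt
    have h1 := hstrict _ _ (not_le.1 hlt)
    have h2 := hτ2 t
    have h3 := hHG s
    linarith
  have hτc : Continuous τ := hτm.continuous_of_surjective hτs
  refine ⟨τ, hτc, hτm, hτs, ?_⟩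
  have hmp : IsProbabilityMeasure (μ.map τ) :=
    Measure.isProbabilityMeasure_map hτc.measurable.aemeasurable
  refine Measure.ext_of_Iic _ _ fun s => ?_
  rw [Measure.map_apply hτc.measurable measurableSet_Iic]
  have hD : IsClosed {t | F t ≤ G s} := isClosed_le hFc continuous_const
  obtain ⟨d, hd1, hd2⟩ := hD.isCompact.exists_isGreatest
    ⟨bot, by change F bot ≤ G s; rw [hF0]; exact measureReal_nonneg⟩
  have hpre : τ ⁻¹' Iic s = Iic d := by
    ext t
    simp only [mem_preimage, mem_Iic]
    rw [key]
    constructor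
    · intro h; exact hd2 h
    · intro h; exact (hFm h).trans hd1
  rw [hpre]
  have h1 : F d = G s := by
    refine le_antisymm hd1 ?_
    obtain ⟨t, ht⟩ := hIVT s
    rw [← ht]
    exact hFm (hd2 ht.le)
  exact (ENNReal.toReal_eq_toReal_iff' (measure_ne_top _ _) (measure_ne_top _ _)).1 h1

end Order

/-! ### Convex potentials on an interval -/

section Convex

variable {g : ℝ → ℝ}

theorem tangent (hg : Continuous g) (hm : Monotone g) (t₀ t : ℝ) :
    g t₀ * (t - t₀) ≤ (∫ r in (0 : ℝ)..t, g r) - ∫ r in (0 : ℝ)..t₀, g r := by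
  have hi : ∀ a b : ℝ, IntervalIntegrable g volume a b := fun a b => hg.intervalIntegrable a b
  rw [intervalIntegral.integral_interval_sub_left (hi _ _) (hi _ _)]
  rcases le_total t₀ t with h | h
  · have h1 : ∫ _ in t₀..t, g t₀ ≤ ∫ r in t₀..t, g r :=
      intervalIntegral.integral_mono_on h (by simp) (hi _ _) fun x hx => hm hx.1
    rw [intervalIntegral.integral_const, smul_eq_mul] at h1
    linarith
  · have h1 : ∫ r in t..t₀, g r ≤ ∫ _ in t..t₀, g t₀ :=
      intervalIntegral.integral_mono_on h (hi _ _) (by simp) fun x hx => hm hx.2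
    rw [intervalIntegral.integral_const, smul_eq_mul] at h1
    rw [intervalIntegral.integral_symm]
    linarith

theorem tangent_eq (hg : Continuous g) (hm : Monotone g) {t₀ t : ℝ}
    (h : g t₀ * (t - t₀) = (∫ r in (0 : ℝ)..t, g r) - ∫ r in (0 : ℝ)..t₀, g r) :
    g t = g t₀ := by
  rcases lt_trichotomy t₀ t with hlt | heq | hlt
  · refine le_antisymm ?_ (hm hlt.le)
    have hcl : IsClosed {r | g r ≤ g t₀} := isClosed_le hg continuous_const
    have hsub : Ioo t₀ t ⊆ {r | g r ≤ g t₀} := by
      intro r hr
      have h1 := tangent hg hm r t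
      have h2 := tangent hg hm t₀ r
      have h3 : g r * (t - r) ≤ g t₀ * (t - r) := by linarith
      exact le_of_mul_le_mul_right h3 (by linarith [hr.2])
    have h4 := hcl.closure_subset_iff.2 hsub
    rw [closure_Ioo hlt.ne] at h4
    exact h4 (right_mem_Icc.2 hlt.le)
  · rw [heq]
  · refine le_antisymm (hm hlt.le) ?_
    have hcl : IsClosed {r | g t₀ ≤ g r} := isClosed_le continuous_const hg
    have hsub : Ioo t t₀ ⊆ {r | g t₀ ≤ g r} := by
      intro r hr
      have h1 := tangent hg hm r t
      have h2 := tangent hg hm t₀ r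
      have h3 : g t₀ * (r - t) ≤ g r * (r - t) := by linarith
      exact le_of_mul_le_mul_right h3 (by linarith [hr.1])
    have h4 := hcl.closure_subset_iff.2 hsub
    rw [closure_Ioo hlt.ne] at h4
    exact h4 (left_mem_Icc.2 hlt.le)

/-- The pair of potentials for a continuous monotone surjection of an interval. -/
theorem exists_potentials {L : ℝ} (hL : 0 ≤ L) {τ : Icc (0 : ℝ) L → Icc (0 : ℝ) L}
    (hc : Continuous τ) (hm : Monotone τ) (hs : Function.Surjective τ) :
    ∃ φ ψ : Icc (0 : ℝ) L → ℝ, Continuous φ ∧ Continuous ψ ∧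
      (∀ t s, φ t + ψ s ≤ dist t s ^ 2 / 2) ∧
      (∀ t s, φ t + ψ s = dist t s ^ 2 / 2 ↔ τ t = s) := by
  set g : ℝ → ℝ := fun x => (τ (projIcc 0 L hL x) : ℝ) with hgdef
  have hg : Continuous g := continuous_subtype_val.comp (hc.comp continuous_projIcc)
  have hgm : Monotone g := fun a b hab => hm (monotone_projIcc hL hab)
  have hgτ : ∀ t : Icc (0 : ℝ) L, g t = τ t := fun t => by
    simp only [hgdef, projIcc_val]
  set u : ℝ → ℝ := fun x => ∫ r in (0 : ℝ)..x, g r with hu
  have huc : Continuous u := intervalIntegral.continuous_primitive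
    (fun a b => hg.intervalIntegrable a b) 0
  choose σ hσ using hs
  set v : Icc (0 : ℝ) L → ℝ := fun s => (s : ℝ) * σ s - u (σ s) with hv
  have hineq : ∀ t s : Icc (0 : ℝ) L, (t : ℝ) * s ≤ u t + v s := by
    intro t s
    have h1 := tangent hg hgm (σ s) t
    rw [hgτ, hσ] at h1
    simp only [hv, hu] at h1 ⊢
    linarith
  have hval : ∀ t : Icc (0 : ℝ) L, (t : ℝ) * τ t = u t + v (τ t) := by
    intro t
    refine le_antisymm (hineq t _) ?_
    have h1 := tangent hg hgm t (σ (τ t))
    rw [hgτ] at h1
    simp only [hv, hu] at h1 ⊢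
    linarith
  have heq : ∀ t s : Icc (0 : ℝ) L, (t : ℝ) * s = u t + v s → τ t = s := by
    intro t s h
    have h1 : g (σ s) * ((t : ℝ) - σ s) =
        (∫ r in (0 : ℝ)..t, g r) - ∫ r in (0 : ℝ)..(σ s), g r := by
      rw [hgτ, hσ]
      simp only [hv, hu] at h ⊢
      linarith
    have h2 := tangent_eq hg hgm h1
    rw [hgτ, hgτ, hσ] at h2
    exact Subtype.ext h2
  have hvc : Continuous v := by
    have hlip : LipschitzWith (Real.toNNReal L) v := by
      refine LipschitzWith.of_dist_le_mul fun s s' => ?_
      rw [Real.coe_toNNReal _ hL, Real.dist_eq, Subtype.dist_eq, Real.dist_eq]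
      have aux : ∀ a b : Icc (0 : ℝ) L, v a - v b ≤ L * |(a : ℝ) - b| := by
        intro a b
        have h1 := hineq (σ a) b
        have h2 : v a - v b ≤ (σ a : ℝ) * ((a : ℝ) - b) := by
          simp only [hv] at h1 ⊢
          linarith
        refine h2.trans ?_
        have h3 : (0 : ℝ) ≤ σ a := (σ a).2.1
        have h4 : (σ a : ℝ) ≤ L := (σ a).2.2
        calc (σ a : ℝ) * ((a : ℝ) - b) ≤ (σ a : ℝ) * |(a : ℝ) - b| := by
              gcongr; exact le_abs_self _
          _ ≤ L * |(a : ℝ) - b| := by gcongr
      rw [abs_le]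
      constructor
      · have := aux s' s
        rw [abs_sub_comm] at this
        linarith
      · exact aux s s'
    exact hlip.continuous
  have hdist : ∀ t s : Icc (0 : ℝ) L, dist t s ^ 2 = ((t : ℝ) - s) ^ 2 := by
    intro t s
    rw [Subtype.dist_eq, Real.dist_eq, sq_abs]
  refine ⟨fun t => (t : ℝ) ^ 2 / 2 - u t, fun s => (s : ℝ) ^ 2 / 2 - v s, ?_, ?_, ?_, ?_⟩
  · exact ((continuous_subtype_val.pow 2).div_const 2).sub (huc.comp continuous_subtype_val)
  · exact ((continuous_subtype_val.pow 2).div_const 2).sub hvc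
  · intro t s
    rw [hdist]
    have := hineq t s
    nlinarith
  · intro t s
    rw [hdist]
    constructor
    · intro h
      refine heq t s ?_
      nlinarith
    · rintro rfl
      have := hval t
      nlinarith

end Convex

end Pool.Agent.Lib.MP_eae870_an
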