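import Pool.Agent.Lib.MP_eae870_an.Defs

/-! # Plans, costs, densities -/

set_option autoImplicit false

open MeasureTheory Set Topology Filter
open scoped ENNReal NNReal BoundedContinuousFunction

namespace Pool.Agent.Lib.MP_eae870_an

universe u v

section Aux

variable {X : Type u} [MetricSpace X] [MeasurableSpace X] [BorelSpace X]

/-- Comparison of finite Borel measures by nonnegative test functions. -/
theorem le_of_forall_lintegral_le {μ ν : Measure X} [IsFiniteMeasure μ] [IsFiniteMeasure ν]
    (h : ∀ f : X →ᵇ ℝ≥0, ∫⁻ x, f x ∂μ ≤ ∫⁻ x, f x ∂ν) : μ ≤ ν := by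
  have hcl : ∀ F : Set X, IsClosed F → μ F ≤ ν F := by
    intro F hF
    have hd : Tendsto (fun n : ℕ => (1 : ℝ) / (n + 1)) atTop (𝓝 0) :=
      tendsto_one_div_add_atTop_nhds_zero_nat
    have h1 := tendsto_lintegral_thickenedIndicator_of_isClosed μ hF
      (δs := fun n : ℕ => (1 : ℝ) / (n + 1)) (fun n => Nat.one_div_pos_of_nat) hd
    have h2 := tendsto_lintegral_thickenedIndicator_of_isClosed ν hF
      (δs := fun n : ℕ => (1 : ℝ) / (n + 1)) (fun n => Nat.one_div_pos_of_nat) hd
    exact le_of_tendsto_of_tendsto' h1 h2 fun n => h _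
  refine Measure.le_iff.2 fun s hs => ?_
  rw [hs.measure_eq_iSup_isClosed_of_ne_top (measure_ne_top μ s)]
  refine iSup₂_le fun F hFs => iSup_le fun hF => ?_
  exact (hcl F hF).trans (measure_mono hFs)

/-- A weakly continuous family of probability measures is measurable. -/
theorem measurable_of_continuous {B : Type v} [TopologicalSpace B] [MeasurableSpace B]
    [OpensMeasurableSpace B] {κ : B → ProbabilityMeasure X} (h : Continuous κ) :
    Measurable fun b => (κ b : Measure X) := by
  refine Measurable.measure_of_isPiSystem_of_isProbabilityMeasure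
    (S := {s : Set X | IsClosed s}) ?_ isPiSystem_isClosed ?_
  · rw [BorelSpace.measurable_eq (α := X), borel_eq_generateFrom_isClosed]
  · intro F hF
    have hd : Tendsto (fun n : ℕ => (1 : ℝ) / (n + 1)) atTop (𝓝 0) :=
      tendsto_one_div_add_atTop_nhds_zero_nat
    refine measurable_of_tendsto_metrizable (f := fun (n : ℕ) (b : B) => ∫⁻ x,
      (thickenedIndicator (Nat.one_div_pos_of_nat (α := ℝ) (n := n)) F x : ℝ≥0∞) ∂(κ b)) ?_ ?_
    · intro n
      exact (ProbabilityMeasure.continuous_iff_forall_continuous_lintegral.1 h _).measurable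
    · rw [tendsto_pi_nhds]
      intro b
      exact tendsto_lintegral_thickenedIndicator_of_isClosed (κ b : Measure X) hF
        (δs := fun n : ℕ => (1 : ℝ) / (n + 1)) (fun n => Nat.one_div_pos_of_nat) hd

end Aux

section Density

variable {X : Type u} [MeasurableSpace X]

theorem hasBoundedDensity_of_le {m μ : Measure X} [IsFiniteMeasure m] [IsFiniteMeasure μ]
    {c : ℝ≥0∞} (hc : c ≠ ∞) (h1 : μ ≤ c • m) (h2 : m ≤ c • μ) : HasBoundedDensity m μ := by
  have hac : μ ≪ m := by
    refine Measure.AbsolutelyContinuous.mk fun s _ hs => ?_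
    have := h1 s
    simp only [Measure.smul_apply, smul_eq_mul, hs, mul_zero] at this
    exact le_antisymm this zero_le
  set f0 := μ.rnDeriv m with hf0
  have hmeas : Measurable f0 := Measure.measurable_rnDeriv μ m
  have hμ : m.withDensity f0 = μ := Measure.withDensity_rnDeriv_eq μ m hac
  have hup : f0 ≤ᵐ[m] fun _ => c := by
    refine ae_le_of_forall_setLIntegral_le_of_sigmaFinite hmeas fun s hs _ => ?_
    rw [← withDensity_apply _ hs, hμ, lintegral_const, Measure.restrict_apply_univ]
    exact h1 s
  have hlow : (fun _ => (1 : ℝ≥0∞)) ≤ᵐ[m] fun x => c * f0 x := by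
    refine ae_le_of_forall_setLIntegral_le_of_sigmaFinite measurable_const fun s hs _ => ?_
    rw [lintegral_const, Measure.restrict_apply_univ, one_mul, lintegral_const_mul _ hmeas,
      ← withDensity_apply _ hs, hμ]
    exact h2 s
  set r : ℝ := max c.toReal 1 with hr
  have hr1 : 1 ≤ r := le_max_right _ _
  have hr0 : 0 < r := by linarith
  have hl : (0 : ℝ) < 1 / r := by positivity
  have hlr : 1 / r ≤ r := by
    rw [div_le_iff₀ hr0]; nlinarith
  refine ⟨1 / r, fun x => max (1 / r) (min r (f0 x).toReal), hl, ?_, ?_, ?_⟩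
  · exact measurable_const.max (measurable_const.min hmeas.ennreal_toReal)
  · intro x
    refine ⟨le_max_left _ _, ?_⟩
    rw [one_div_one_div]
    exact max_le hlr (min_le_left _ _)
  · rw [← hμ]
    refine withDensity_congr_ae ?_
    filter_upwards [hup, hlow] with x hx1 hx2
    have hne : f0 x ≠ ∞ := ne_top_of_le_ne_top hc hx1
    have e1 : (f0 x).toReal ≤ r := by
      refine le_trans ?_ (le_max_left _ _)
      exact ENNReal.toReal_mono hc hx1
    have e2 : 1 / r ≤ (f0 x).toReal := by
      have h3 : (1 : ℝ) ≤ c.toReal * (f0 x).toReal := by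
        rw [← ENNReal.toReal_mul]
        have := ENNReal.toReal_mono (ENNReal.mul_ne_top hc hne) hx2
        simpa using this
      rw [div_le_iff₀ hr0]
      have h4 : c.toReal ≤ r := le_max_left _ _
      have h5 : 0 ≤ (f0 x).toReal := ENNReal.toReal_nonneg
      nlinarith
    rw [min_eq_right e1, max_eq_right e2, ENNReal.ofReal_toReal hne]

theorem HasBoundedDensity.exists_le {m μ : Measure X} (h : HasBoundedDensity m μ) :
    ∃ c : ℝ≥0∞, c ≠ ∞ ∧ c ≠ 0 ∧ μ ≤ c • m ∧ m ≤ c • μ := by
  obtain ⟨l, f, hl, hf, hb, rfl⟩ := h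
  have hc0 : ENNReal.ofReal (1 / l) ≠ 0 := by
    rw [Ne, ENNReal.ofReal_eq_zero, not_le]
    positivity
  refine ⟨ENNReal.ofReal (1 / l), ENNReal.ofReal_ne_top, hc0, ?_, ?_⟩
  · rw [← withDensity_const]
    exact withDensity_mono (Eventually.of_forall fun x => ENNReal.ofReal_le_ofReal (hb x).2)
  · have hfm : Measurable fun x => ENNReal.ofReal (f x) := hf.ennreal_ofReal
    rw [← withDensity_smul _ hfm]
    nth_rewrite 1 [← withDensity_one (μ := m)]
    refine withDensity_mono (Eventually.of_forall fun x => ?_)
    simp only [Pi.one_apply, Pi.smul_apply, smul_eq_mul]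
    rw [← ENNReal.ofReal_mul (by positivity), ← ENNReal.ofReal_one]
    refine ENNReal.ofReal_le_ofReal ?_
    rw [one_div, ← div_eq_inv_mul, le_div_iff₀ hl, one_mul]
    exact (hb x).1

end Density

/-! ### Plans, costs and graphs -/

section Plans

set_option linter.unusedSectionVars false

variable {X : Type u} [MetricSpace X] [CompactSpace X] [MeasurableSpace X] [BorelSpace X]

omit [MeasurableSpace X] [BorelSpace X] [CompactSpace X] in
theorem continuous_costFun : Continuous fun z : X × X => dist z.1 z.2 ^ 2 / 2 := by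
  fun_prop

theorem integrable_costFun (γ : Measure (X × X)) [IsFiniteMeasure γ] :
    Integrable (fun z : X × X => dist z.1 z.2 ^ 2 / 2) γ :=
  continuous_costFun.integrable_of_hasCompactSupport (HasCompactSupport.of_compactSpace _)

theorem cost_add (γ₁ γ₂ : Measure (X × X)) [IsFiniteMeasure γ₁] [IsFiniteMeasure γ₂] :
    cost (γ₁ + γ₂) = cost γ₁ + cost γ₂ :=
  integral_add_measure (integrable_costFun γ₁) (integrable_costFun γ₂)

omit [CompactSpace X] [BorelSpace X] in
theorem cost_smul (c : ℝ≥0∞) (γ : Measure (X × X)) : cost (c • γ) = c.toReal * cost γ := by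
  unfold cost
  rw [integral_smul_measure, smul_eq_mul]

omit [CompactSpace X] [MetricSpace X] [BorelSpace X] in
theorem isProbabilityMeasure_of_coupling {μ ν : Measure X} [hμ : IsProbabilityMeasure μ]
    {γ : Measure (X × X)} (h : IsCoupling μ ν γ) : IsProbabilityMeasure γ := by
  refine ⟨?_⟩
  have h1 : μ univ = 1 := measure_univ
  rwa [← h.1, Measure.map_apply measurable_fst MeasurableSet.univ, preimage_univ] at h1

theorem measurable_graph {T : X → X} (hT : Continuous T) : Measurable fun x => (x, T x) :=
  measurable_id.prodMk hT.measurable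

theorem graphPlan_fst (μ : Measure X) {T : X → X} (hT : Continuous T) :
    (graphPlan μ T).map Prod.fst = μ := by
  unfold graphPlan
  rw [Measure.map_map measurable_fst (measurable_graph hT)]
  exact Measure.map_id

theorem graphPlan_snd (μ : Measure X) {T : X → X} (hT : Continuous T) :
    (graphPlan μ T).map Prod.snd = μ.map T := by
  unfold graphPlan
  rw [Measure.map_map measurable_snd (measurable_graph hT)]
  rfl

theorem graphPlan_null (μ : Measure X) {T : X → X} (hT : Continuous T) :
    graphPlan μ T {z | z.2 ≠ T z.1} = 0 := by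
  unfold graphPlan
  have hms : MeasurableSet {z : X × X | z.2 ≠ T z.1} :=
    (isOpen_ne_fun continuous_snd (hT.comp continuous_fst)).measurableSet
  rw [Measure.map_apply (measurable_graph hT) hms]
  have : (fun x => (x, T x)) ⁻¹' {z : X × X | z.2 ≠ T z.1} = ∅ := by
    ext x; simp
  rw [this, measure_empty]

theorem eq_graphPlan_of_null {μ : Measure X} {γ : Measure (X × X)} {T : X → X}
    (hT : Continuous T) (h1 : γ.map Prod.fst = μ) (h0 : γ {z | z.2 ≠ T z.1} = 0) :
    γ = graphPlan μ T := by
  unfold graphPlan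
  rw [← h1, Measure.map_map (measurable_graph hT) measurable_fst]
  have h2 : (fun z : X × X => z) =ᵐ[γ] ((fun x => (x, T x)) ∘ Prod.fst) := by
    have : ∀ᵐ z ∂γ, z.2 = T z.1 := by
      rw [ae_iff]; exact h0
    filter_upwards [this] with z hz
    simp [← hz]
  rw [← Measure.map_congr h2]
  exact Measure.map_id.symm

/-- Inheritance of optimality: it is enough to know continuity for one fixed source measure. -/
theorem induced_of_optimal {m μ ν : Measure X} [IsProbabilityMeasure m]
    [IsProbabilityMeasure μ] [IsProbabilityMeasure ν]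
    (hμ : HasBoundedDensity m μ) (hν : HasBoundedDensity m ν)
    (hU : ∀ ν' : Measure X, IsProbabilityMeasure ν' → HasBoundedDensity m ν' →
      HasContinuousOptimalMap m ν')
    {γ : Measure (X × X)} (hγ : IsCoupling μ ν γ)
    (hopt : ∀ η : Measure (X × X), IsCoupling μ ν η → cost γ ≤ cost η) :
    ∃ T : X → X, Continuous T ∧ γ = graphPlan μ T := by
  have hγp : IsProbabilityMeasure γ := isProbabilityMeasure_of_coupling hγ
  obtain ⟨c, hc, -, hc1, hc2⟩ := hμ.exists_le
  obtain ⟨c', hc', -, hc1', hc2'⟩ := hν.exists_le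
  obtain ⟨l, f, hl, hf, hb, hm⟩ : HasBoundedDensity μ m := hasBoundedDensity_of_le hc hc2 hc1
  set w : X → ℝ≥0∞ := fun x => ENNReal.ofReal (f x) with hw
  have hwm : Measurable w := hf.ennreal_ofReal
  have hwm' : Measurable fun z : X × X => w z.1 := hwm.comp measurable_fst
  set ε : ℝ≥0∞ := ENNReal.ofReal l with hε
  set C : ℝ≥0∞ := ENNReal.ofReal (1 / l) with hC
  have hCt : C ≠ ∞ := ENNReal.ofReal_ne_top
  have hεt : ε ≠ ∞ := ENNReal.ofReal_ne_top
  have hwC : ∀ x, w x ≤ C := fun x => ENNReal.ofReal_le_ofReal (hb x).2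
  have hεC : ε * C = 1 := by
    rw [hε, hC, ← ENNReal.ofReal_mul hl.le, mul_one_div_cancel hl.ne', ENNReal.ofReal_one]
  have hεw : ∀ x, ε * w x ≤ 1 := by
    intro x
    calc ε * w x ≤ ε * C := by gcongr; exact hwC x
      _ = 1 := hεC
  have hCw : ∀ x, 1 ≤ C * w x := by
    intro x
    calc (1 : ℝ≥0∞) = C * ε := by rw [mul_comm, hεC]
      _ ≤ C * w x := by gcongr; exact ENNReal.ofReal_le_ofReal (hb x).1
  -- the new plan
  set γ' : Measure (X × X) := γ.withDensity fun z => w z.1 with hγ'
  set ρ : Measure (X × X) := γ.withDensity fun z => 1 - ε * w z.1 with hρ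
  have hγ'1 : γ'.map Prod.fst = m := by
    rw [hm, ← hγ.1]
    refine Measure.ext fun s hs => ?_
    rw [Measure.map_apply measurable_fst hs, hγ', withDensity_apply _ (measurable_fst hs),
      withDensity_apply _ hs, setLIntegral_map hs hwm measurable_fst]
  have hγ'p : IsProbabilityMeasure γ' := by
    refine ⟨?_⟩
    have h1 : m univ = 1 := measure_univ
    rwa [← hγ'1, Measure.map_apply measurable_fst MeasurableSet.univ, preimage_univ] at h1
  have hle1 : γ' ≤ C • γ := by
    rw [← withDensity_const]
    exact withDensity_mono (Eventually.of_forall fun z => hwC _)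
  have hle2 : γ ≤ C • γ' := by
    rw [hγ', ← withDensity_smul _ hwm']
    nth_rewrite 1 [← withDensity_one (μ := γ)]
    exact withDensity_mono (Eventually.of_forall fun z => hCw _)
  have hρf : IsFiniteMeasure ρ := by
    refine isFiniteMeasure_withDensity ?_
    refine ne_top_of_le_ne_top (b := ∫⁻ _, 1 ∂γ) (by simp) ?_
    exact lintegral_mono fun z => tsub_le_self
  have hdec : γ = ε • γ' + ρ := by
    rw [hγ', hρ, ← withDensity_smul _ hwm', ← withDensity_add_left (hwm'.const_smul ε)]
    nth_rewrite 1 [← withDensity_one (μ := γ)]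
    congr 1
    ext z
    simp only [Pi.one_apply, Pi.add_apply, Pi.smul_apply, smul_eq_mul]
    exact (add_tsub_cancel_of_le (hεw _)).symm
  set ν' : Measure X := γ'.map Prod.snd with hν'
  have hν'p : IsProbabilityMeasure ν' := Measure.isProbabilityMeasure_map measurable_snd.aemeasurable
  have hν'1 : ν' ≤ C • ν := by
    rw [← hγ.2, ← Measure.map_smul]
    exact Measure.map_mono hle1 measurable_snd
  have hν'2 : ν ≤ C • ν' := by
    rw [← hγ.2, hν', ← Measure.map_smul]
    exact Measure.map_mono hle2 measurable_snd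
  have hν'b : HasBoundedDensity m ν' := by
    refine hasBoundedDensity_of_le (c := C * c') (ENNReal.mul_ne_top hCt hc') ?_ ?_
    · calc ν' ≤ C • ν := hν'1
        _ ≤ C • (c' • m) := by gcongr
        _ = (C * c') • m := by rw [smul_smul]
    · calc m ≤ c' • ν := hc2'
        _ ≤ c' • (C • ν') := by gcongr
        _ = (C * c') • ν' := by rw [smul_smul, mul_comm]
  have hopt' : ∀ η : Measure (X × X), IsCoupling m ν' η → cost γ' ≤ cost η := by
    intro η hη
    have hηp : IsProbabilityMeasure η := isProbabilityMeasure_of_coupling hη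
    have hfε : IsFiniteMeasure (ε • η) := by
      refine ⟨?_⟩
      rw [Measure.smul_apply, measure_univ, smul_eq_mul, mul_one]; exact hεt.lt_top
    have hfε' : IsFiniteMeasure (ε • γ') := by
      refine ⟨?_⟩
      rw [Measure.smul_apply, measure_univ, smul_eq_mul, mul_one]; exact hεt.lt_top
    have hcoup : IsCoupling μ ν (ε • η + ρ) := by
      constructor
      · rw [Measure.map_add _ _ measurable_fst, Measure.map_smul, hη.1, ← hγ'1,
          ← Measure.map_smul, ← Measure.map_add _ _ measurable_fst, ← hdec]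
        exact hγ.1
      · rw [Measure.map_add _ _ measurable_snd, Measure.map_smul, hη.2, hν',
          ← Measure.map_smul, ← Measure.map_add _ _ measurable_snd, ← hdec]
        exact hγ.2
    have h1 := hopt _ hcoup
    rw [hdec, cost_add, cost_add, cost_smul, cost_smul] at h1
    have h2 : ε.toReal = l := ENNReal.toReal_ofReal hl.le
    rw [h2] at h1
    have h3 : l * cost γ' ≤ l * cost η := by linarith
    exact le_of_mul_le_mul_left h3 hl
  obtain ⟨T, hT, hmT, hTopt⟩ := hU ν' hν'p hν'b
  have hcT : IsCoupling m ν' (graphPlan m T) :=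
    ⟨graphPlan_fst m hT, by rw [graphPlan_snd m hT, hmT]⟩
  have hcγ' : IsCoupling m ν' γ' := ⟨hγ'1, rfl⟩
  have heq : γ' = graphPlan m T :=
    (hTopt γ' hcγ').2 (le_antisymm (hopt' _ hcT) (hTopt γ' hcγ').1)
  refine ⟨T, hT, eq_graphPlan_of_null hT hγ.1 ?_⟩
  have h0 : γ' {z | z.2 ≠ T z.1} = 0 := by
    rw [heq]; exact graphPlan_null m hT
  have h1 := hle2 {z | z.2 ≠ T z.1}
  rw [Measure.smul_apply, h0, smul_zero] at h1
  exact le_antisymm h1 zero_le

/-- Existence of optimal plans on compact spaces. -/
theorem exists_optimal (μ ν : Measure X) [IsProbabilityMeasure μ] [IsProbabilityMeasure ν] :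
    ∃ γ : Measure (X × X), IsCoupling μ ν γ ∧
      ∀ η : Measure (X × X), IsCoupling μ ν η → cost γ ≤ cost η := by
  let μ' : ProbabilityMeasure X := ⟨μ, inferInstance⟩
  let ν' : ProbabilityMeasure X := ⟨ν, inferInstance⟩
  let S : Set (ProbabilityMeasure (X × X)) :=
    {γ | γ.map measurable_fst.aemeasurable = μ' ∧ γ.map measurable_snd.aemeasurable = ν'}
  have hS1 : IsClosed S := by
    refine IsClosed.inter ?_ ?_
    · exact isClosed_eq (ProbabilityMeasure.continuous_map continuous_fst) continuous_const
    · exact isClosed_eq (ProbabilityMeasure.continuous_map continuous_snd) continuous_const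
  have hSc : IsCompact S := hS1.isCompact
  have hSne : S.Nonempty := ⟨μ'.prod ν', by simp [S]⟩
  have hcc : Continuous fun γ : ProbabilityMeasure (X × X) => cost (γ : Measure (X × X)) :=
    ProbabilityMeasure.continuous_integral_continuousMap
      (⟨fun z => dist z.1 z.2 ^ 2 / 2, continuous_costFun⟩ : C(X × X, ℝ))
  obtain ⟨γ, hγS, hmin⟩ := hSc.exists_isMinOn hSne hcc.continuousOn
  refine ⟨γ, ?_, ?_⟩
  · constructor
    · have := congrArg (fun q : ProbabilityMeasure X => (q : Measure X)) hγS.1
      rwa [ProbabilityMeasure.toMeasure_map] at this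
    · have := congrArg (fun q : ProbabilityMeasure X => (q : Measure X)) hγS.2
      rwa [ProbabilityMeasure.toMeasure_map] at this
  · intro η hη
    have hηp : IsProbabilityMeasure η := isProbabilityMeasure_of_coupling hη
    have : (⟨η, hηp⟩ : ProbabilityMeasure (X × X)) ∈ S := by
      constructor
      · refine ProbabilityMeasure.toMeasure_injective ?_
        change Measure.map Prod.fst η = μ
        exact hη.1
      · refine ProbabilityMeasure.toMeasure_injective ?_
        change Measure.map Prod.snd η = ν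
        exact hη.2
    exact hmin this

end Plans

end Pool.Agent.Lib.MP_eae870_an
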