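import Pool.Agent.Lib.MP_eae870_an.Plans

set_option autoImplicit false

open MeasureTheory Set Topology Filter
open scoped ENNReal NNReal BoundedContinuousFunction

namespace Pool.Agent.Lib.MP_eae870_an

universe u v

/-! ### Example: quotients by compact groups of isometries -/

section Quotient

universe w

variable {X : Type u} [MetricSpace X] [CompactSpace X] [MeasurableSpace X] [BorelSpace X]
variable {B : Type v} [MetricSpace B]
variable {G : Type w} [Group G] [TopologicalSpace G] [IsTopologicalGroup G] [CompactSpace G]
  [MeasurableSpace G] [BorelSpace G] [MulAction G X] [ContinuousSMul G X]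

/-- The orbit map of an isometric action of a compact group is a submersion (with `A = 1`); the
fibre measures are the invariant probability measures of the orbits. -/
theorem exists_isSubmersion_quotient
    (hiso : ∀ (g : G) (x y : X), dist (g • x) (g • y) = dist x y)
    (p : X → B) (hs : Function.Surjective p)
    (hd : ∀ x y, dist (p x) (p y) = ⨅ g : G, dist x (g • y)) :
    ∃ κ : B → ProbabilityMeasure X, IsSubmersion p κ 1 := by
  classical
  let σ : Measure G := Measure.haarMeasure (⊤ : TopologicalSpace.PositiveCompacts G)
  have hσ : IsProbabilityMeasure σ := ⟨Measure.haarMeasure_self⟩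
  have hbdd : ∀ x y : X, BddBelow (range fun g : G => dist x (g • y)) := fun x y =>
    ⟨0, by rintro _ ⟨g, rfl⟩; exact dist_nonneg⟩
  have hle : ∀ (x y : X) (g : G), dist (p x) (p y) ≤ dist x (g • y) := fun x y g => by
    rw [hd]; exact ciInf_le (hbdd x y) g
  have hlip : ∀ x y, dist (p x) (p y) ≤ dist x y := fun x y => by
    have := hle x y 1
    rwa [one_smul] at this
  have hpc : Continuous p := (LipschitzWith.of_dist_le' (K := 1) (by simpa using hlip)).continuous
  have hinv : ∀ (g : G) (x : X), p (g • x) = p x := fun g x => by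
    have h1 := hle (g • x) x g
    rw [dist_self] at h1
    exact dist_le_zero.1 h1
  have hatt : ∀ x y : X, ∃ g : G, dist x (g • y) = dist (p x) (p y) := by
    intro x y
    have hc : Continuous fun g : G => dist x (g • y) :=
      continuous_const.dist (continuous_id.smul continuous_const)
    obtain ⟨g, -, hg⟩ := isCompact_univ.exists_isMinOn (univ_nonempty (α := G)) hc.continuousOn
    refine ⟨g, le_antisymm ?_ (hle x y g)⟩
    rw [hd]
    exact le_ciInf fun g' => hg (mem_univ g')
  have hact : ∀ x : X, Continuous fun g : G => g⁻¹ • x := fun x =>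
    continuous_inv.smul continuous_const
  let κ' : X → ProbabilityMeasure X := fun x =>
    ⟨σ.map fun g => g⁻¹ • x, Measure.isProbabilityMeasure_map (hact x).measurable.aemeasurable⟩
  have hκ'm : ∀ x, (κ' x : Measure X) = σ.map fun g => g⁻¹ • x := fun x => rfl
  have hκ'c : Continuous κ' := by
    refine ProbabilityMeasure.continuous_iff_forall_continuousMap_continuous_integral.2 fun φ => ?_
    have h1 : ∀ x, ∫ y, φ y ∂(κ' x : Measure X) = ∫ g, φ (g⁻¹ • x) ∂σ := by
      intro x
      rw [hκ'm, integral_map (hact x).measurable.aemeasurable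
        φ.continuous.aestronglyMeasurable]
    simp_rw [h1]
    refine continuous_of_dominated (bound := fun _ => ‖φ‖) ?_ ?_ ?_ ?_
    · intro x
      exact (φ.continuous.comp (hact x)).aestronglyMeasurable
    · intro x
      exact Eventually.of_forall fun g => φ.norm_coe_le_norm _
    · exact integrable_const _
    · exact Eventually.of_forall fun g => φ.continuous.comp (continuous_const_smul _)
  have hκ'i : ∀ (h : G) (y : X), κ' (h • y) = κ' y := by
    intro h y
    refine Subtype.ext ?_
    change (σ.map fun g => g⁻¹ • h • y) = σ.map fun g => g⁻¹ • y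
    have h1 : (fun g : G => g⁻¹ • h • y) = (fun g : G => g⁻¹ • y) ∘ fun g => h⁻¹ * g := by
      funext g
      simp only [Function.comp, mul_inv_rev, inv_inv, mul_smul]
    rw [h1, ← Measure.map_map (hact y).measurable (measurable_const_mul _),
      map_mul_left_eq_self]
  choose s hss using hs
  have hκp : ∀ x, κ' (s (p x)) = κ' x := by
    intro x
    obtain ⟨g, hg⟩ := hatt x (s (p x))
    rw [hss, dist_self] at hg
    have h1 : x = g • s (p x) := dist_eq_zero.1 hg
    conv_rhs => rw [h1]
    rw [hκ'i]
  have hqm : IsQuotientMap p := hpc.isClosedMap.isQuotientMap hpc fun b => ⟨s b, hss b⟩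
  refine ⟨fun b => κ' (s b), ⟨hlip, ?_, ?_, ?_, ?_⟩⟩
  · rw [hqm.continuous_iff]
    have : (fun b => κ' (s b)) ∘ p = κ' := funext hκp
    rw [this]
    exact hκ'c
  · intro b
    change (σ.map fun g => g⁻¹ • s b) {x | p x ≠ b} = 0
    rw [Measure.map_apply (hact _).measurable
      (isOpen_ne_fun hpc continuous_const).measurableSet]
    have : (fun g : G => g⁻¹ • s b) ⁻¹' {x | p x ≠ b} = ∅ := by
      ext g
      simp [hinv, hss]
    rw [this, measure_empty]
  · intro x U hU hxU
    change (κ' (s (p x)) : Measure X) U ≠ 0
    rw [hκp, hκ'm, Measure.map_apply (hact _).measurable hU.measurableSet]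
    refine (IsOpen.measure_pos σ (hU.preimage (hact x)) ⟨1, ?_⟩).ne'
    simpa using hxU
  · intro b b'
    obtain ⟨h, hh⟩ := hatt (s b) (s b')
    rw [hss, hss] at hh
    have hpair : Measurable fun g : G => (g⁻¹ • s b, g⁻¹ • h • s b') :=
      (hact _).measurable.prodMk (hact _).measurable
    have h2 : ((σ.map fun g : G => (g⁻¹ • s b, g⁻¹ • h • s b')).map Prod.snd : Measure X)
        = (κ' (s b') : Measure X) := by
      rw [Measure.map_map measurable_snd hpair, ← hκ'i h (s b')]
      rfl
    refine ⟨σ.map fun g => (g⁻¹ • s b, g⁻¹ • h • s b'), ?_, ?_, ?_, ?_⟩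
    · rw [Measure.map_map measurable_fst hpair]
      rfl
    · rw [h2, one_smul]
    · rw [h2, one_smul]
    · have hms : MeasurableSet {z : X × X | dist z.1 z.2 ≠ dist b b'} :=
        (isOpen_ne_fun (continuous_fst.dist continuous_snd) continuous_const).measurableSet
      rw [Measure.map_apply hpair hms]
      have : (fun g : G => (g⁻¹ • s b, g⁻¹ • h • s b')) ⁻¹'
          {z : X × X | dist z.1 z.2 ≠ dist b b'} = ∅ := by
        ext g
        simp only [mem_preimage, mem_ofPred_eq, ne_eq, mem_empty_iff_false, iff_false, not_not]
        rw [hiso, hh]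
      rw [this, measure_empty]

end Quotient

end Pool.Agent.Lib.MP_eae870_an
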