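import Pool.Agent.Lib.MP_eae870_an.Plans
import Pool.Agent.Lib.MP_eae870_an.OneDim

/-! # Transport of measures which are basic for a map onto an interval -/

set_option autoImplicit false

open MeasureTheory Set Topology Filter
open scoped ENNReal NNReal

namespace Pool.Agent.Lib.MP_eae870_an

universe u

/-- Through every point which lies over the interior of the interval there is at most one way to
go to a given fibre along a segment whose length is the distance of the two parameters. -/
def HasUniqueFeet {X : Type u} [MetricSpace X] {L : ℝ} (p : X → Icc (0 : ℝ) L) : Prop :=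
  ∀ x y y' : X, 0 < (p x : ℝ) → (p x : ℝ) < L → p y = p y' →
    dist x y = dist (p x) (p y) → dist x y' = dist (p x) (p y') → y = y'

section Main

variable {X : Type u} [MetricSpace X] [CompactSpace X] [MeasurableSpace X] [BorelSpace X]
variable {L : ℝ} {p : X → Icc (0 : ℝ) L} {κ : Icc (0 : ℝ) L → ProbabilityMeasure X}

theorem basic_data (hL : 0 < L) (hp : IsSubmersion p κ 1) (hn : HasUniqueFeet p)
    (μ ν : Measure (Icc (0 : ℝ) L)) [IsProbabilityMeasure μ] [IsProbabilityMeasure ν]
    [NullSingletonClass μ] [ν.IsOpenPosMeasure] :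
    HasContinuousOptimalMap (μ.bind fun b => (κ b : Measure X))
      (ν.bind fun b => (κ b : Measure X)) := by
  have hpc : Continuous p :=
    (LipschitzWith.of_dist_le' (K := 1) (by simpa using hp.lip)).continuous
  have hpm : Measurable p := hpc.measurable
  have hκm : Measurable fun b => (κ b : Measure X) := measurable_of_continuous hp.cont
  have : PreconnectedSpace (Icc (0 : ℝ) L) := Subtype.preconnectedSpace isPreconnected_Icc
  obtain ⟨τ, hτc, hτm, hτs, hτμ⟩ := exists_rearrangement μ ν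
  obtain ⟨φ, ψ, hφ, hψ, hle, heq⟩ := exists_potentials hL.le hτc hτm hτs
  set z0 : Icc (0 : ℝ) L := ⟨0, le_rfl, hL.le⟩ with hz0
  set z1 : Icc (0 : ℝ) L := ⟨L, hL.le, le_rfl⟩ with hz1
  have hτ0 : τ z0 = z0 := by
    obtain ⟨t, ht⟩ := hτs z0
    have hzt : z0 ≤ t := t.2.1
    refine le_antisymm ?_ (Subtype.mk_le_mk.2 (τ z0).2.1)
    calc τ z0 ≤ τ t := hτm hzt
      _ = z0 := ht
  have hτ1 : τ z1 = z1 := by
    obtain ⟨t, ht⟩ := hτs z1
    have hzt : t ≤ z1 := t.2.2
    refine le_antisymm (Subtype.mk_le_mk.2 (τ z1).2.2) ?_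
    calc z1 = τ t := ht.symm
      _ ≤ τ z1 := hτm hzt
  -- the relation
  let K : Set (X × X) := {z | p z.2 = τ (p z.1) ∧ dist z.1 z.2 = dist (p z.1) (p z.2)}
  have hKc : IsClosed K := by
    refine IsClosed.inter ?_ ?_
    · exact isClosed_eq (hpc.comp continuous_snd) (hτc.comp (hpc.comp continuous_fst))
    · exact isClosed_eq (continuous_fst.dist continuous_snd)
        ((hpc.comp continuous_fst).dist (hpc.comp continuous_snd))
  have huniq : ∀ x y y', (x, y) ∈ K → (x, y') ∈ K → y = y' := by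
    intro x y y' h h'
    have h1 : p y = τ (p x) := h.1
    have h2 : dist x y = dist (p x) (p y) := h.2
    have h1' : p y' = τ (p x) := h'.1
    have h2' : dist x y' = dist (p x) (p y') := h'.2
    by_cases hx0 : 0 < (p x : ℝ)
    · by_cases hx1 : (p x : ℝ) < L
      · exact hn x y y' hx0 hx1 (h1.trans h1'.symm) h2 h2'
      · have hx : p x = z1 := Subtype.ext (le_antisymm (p x).2.2 (not_lt.1 hx1))
        rw [h1, hx, hτ1, dist_self] at h2
        rw [h1', hx, hτ1, dist_self] at h2'
        rw [← dist_eq_zero.1 h2, ← dist_eq_zero.1 h2']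
    · have hx : p x = z0 := Subtype.ext (le_antisymm (not_lt.1 hx0) (p x).2.1)
      rw [h1, hx, hτ0, dist_self] at h2
      rw [h1', hx, hτ0, dist_self] at h2'
      rw [← dist_eq_zero.1 h2, ← dist_eq_zero.1 h2']
  -- the fibre plans are carried by the relation
  have hplan : ∀ b, ∃ Γ : Measure (X × X), Γ.map Prod.fst = (κ b : Measure X) ∧
      Γ.map Prod.snd = (κ (τ b) : Measure X) ∧ ∀ᵐ z ∂Γ, z ∈ K := by
    intro b
    obtain ⟨Γ, h1, h2, h3, h4⟩ := hp.lift b (τ b)
    rw [one_smul] at h2 h3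
    have h5 : Γ.map Prod.snd = (κ (τ b) : Measure X) := le_antisymm h2 h3
    refine ⟨Γ, h1, h5, ?_⟩
    have hfst : ∀ᵐ z ∂Γ, p z.1 = b := by
      have h6 : Γ.map Prod.fst {x | p x ≠ b} = 0 := by
        rw [h1]; exact hp.fibre _
      rw [Measure.map_apply measurable_fst
        (isOpen_ne_fun hpc continuous_const).measurableSet] at h6
      rw [ae_iff]
      exact h6
    have hsnd : ∀ᵐ z ∂Γ, p z.2 = τ b := by
      have h6 : Γ.map Prod.snd {x | p x ≠ τ b} = 0 := by
        rw [h5]; exact hp.fibre _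
      rw [Measure.map_apply measurable_snd
        (isOpen_ne_fun hpc continuous_const).measurableSet] at h6
      rw [ae_iff]
      exact h6
    have hdist : ∀ᵐ z ∂Γ, dist z.1 z.2 = dist b (τ b) := by
      rw [ae_iff]
      exact h4
    filter_upwards [hfst, hsnd, hdist] with z ha hb hc
    exact ⟨by rw [ha, hb], by rw [ha, hb, hc]⟩
  have hexist : ∀ x, ∃ y, (x, y) ∈ K := by
    intro x
    by_contra hx
    have hC : IsClosed (Prod.fst '' K) := (hKc.isCompact.image continuous_fst).isClosed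
    have hxC : x ∈ (Prod.fst '' K)ᶜ := by
      rintro ⟨⟨x', y⟩, hz, rfl⟩
      exact hx ⟨y, hz⟩
    refine hp.full x _ hC.isOpen_compl hxC ?_
    obtain ⟨Γ, h1, -, h3⟩ := hplan (p x)
    rw [← h1, Measure.map_apply measurable_fst hC.isOpen_compl.measurableSet]
    refine measure_mono_null ?_ (ae_iff.1 h3)
    intro z hz hzK
    exact hz ⟨z, hzK, rfl⟩
  choose T hT using hexist
  have hTK : ∀ z : X × X, z ∈ K → z.2 = T z.1 := fun z hz => huniq z.1 z.2 (T z.1) hz (hT _)
  have hTc : Continuous T := by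
    rw [continuous_iff_isClosed]
    intro C hC
    have h1 : T ⁻¹' C = Prod.fst '' (K ∩ Prod.snd ⁻¹' C) := by
      ext x
      constructor
      · intro hx
        exact ⟨(x, T x), ⟨hT x, hx⟩, rfl⟩
      · rintro ⟨⟨x', y⟩, ⟨hz, hy⟩, rfl⟩
        have h2 := hTK _ hz
        change T x' ∈ C
        simp only at h2
        rw [← h2]
        exact hy
    rw [h1]
    exact ((hKc.inter (hC.preimage continuous_snd)).isCompact.image continuous_fst).isClosed
  have hpush : ∀ b, (κ b : Measure X).map T = (κ (τ b) : Measure X) := by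
    intro b
    obtain ⟨Γ, h1, h2, h3⟩ := hplan b
    rw [← h1, ← h2, Measure.map_map hTc.measurable measurable_fst]
    refine Measure.map_congr ?_
    filter_upwards [h3] with z hz
    exact (hTK z hz).symm
  set μ' : Measure X := μ.bind fun b => (κ b : Measure X) with hμ'
  set ν' : Measure X := ν.bind fun b => (κ b : Measure X) with hν'
  have hTμ : μ'.map T = ν' := by
    refine Measure.ext fun s hs => ?_
    have hms : Measurable fun b => (κ b : Measure X) s := (Measure.measurable_coe hs).comp hκm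
    rw [Measure.map_apply hTc.measurable hs, hμ', hν',
      Measure.bind_apply (hTc.measurable hs) hκm.aemeasurable,
      Measure.bind_apply hs hκm.aemeasurable, ← hτμ, lintegral_map hms hτc.measurable]
    refine lintegral_congr fun b => ?_
    rw [← hpush b, Measure.map_apply hTc.measurable hs]
  have hμ'p : IsProbabilityMeasure μ' := by
    refine ⟨?_⟩
    rw [hμ', Measure.bind_apply MeasurableSet.univ hκm.aemeasurable]
    simp
  -- the dual bound
  let D : X × X → ℝ := fun z => dist z.1 z.2 ^ 2 / 2 - (φ (p z.1) + ψ (p z.2))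
  have hDc : Continuous D := continuous_costFun.sub
    ((hφ.comp (hpc.comp continuous_fst)).add (hψ.comp (hpc.comp continuous_snd)))
  have hD0 : ∀ z, 0 ≤ D z := by
    intro z
    have h1 := hle (p z.1) (p z.2)
    have h2 := hp.lip z.1 z.2
    have h3 : dist (p z.1) (p z.2) ^ 2 ≤ dist z.1 z.2 ^ 2 := pow_le_pow_left₀ dist_nonneg h2 2
    simp only [D]
    linarith
  have hDK : ∀ z, D z = 0 → z ∈ K := by
    intro z hz
    have h1 := hle (p z.1) (p z.2)
    have h2 := hp.lip z.1 z.2
    have h3 : dist (p z.1) (p z.2) ^ 2 ≤ dist z.1 z.2 ^ 2 := pow_le_pow_left₀ dist_nonneg h2 2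
    simp only [D] at hz
    have h4 : φ (p z.1) + ψ (p z.2) = dist (p z.1) (p z.2) ^ 2 / 2 := by linarith
    have h5 : dist z.1 z.2 ^ 2 = dist (p z.1) (p z.2) ^ 2 := by linarith
    refine ⟨((heq _ _).1 h4).symm, ?_⟩
    exact (pow_left_inj₀ dist_nonneg dist_nonneg two_ne_zero).1 h5
  have hKD : ∀ z, z ∈ K → D z = 0 := by
    intro z hz
    have h1 : φ (p z.1) + ψ (p z.2) = dist (p z.1) (p z.2) ^ 2 / 2 := (heq _ _).2 hz.1.symm
    simp only [D]
    rw [hz.2, h1, sub_self]
  have hint : ∀ (γ : Measure (X × X)) [IsFiniteMeasure γ] (f : X × X → ℝ), Continuous f →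
      Integrable f γ := fun γ _ f hf =>
    hf.integrable_of_hasCompactSupport (HasCompactSupport.of_compactSpace _)
  have hcost : ∀ γ : Measure (X × X), IsCoupling μ' ν' γ →
      cost γ = (∫ x, φ (p x) ∂μ' + ∫ y, ψ (p y) ∂ν') + ∫ z, D z ∂γ := by
    intro γ hγ
    have hγp : IsProbabilityMeasure γ := isProbabilityMeasure_of_coupling hγ
    have a1 : AEStronglyMeasurable (fun x => φ (p x)) (γ.map Prod.fst) :=
      (hφ.comp hpc).aestronglyMeasurable
    have a2 : AEStronglyMeasurable (fun x => ψ (p x)) (γ.map Prod.snd) :=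
      (hψ.comp hpc).aestronglyMeasurable
    have h1 : ∫ x, φ (p x) ∂μ' = ∫ z, φ (p z.1) ∂γ := by
      rw [← hγ.1, integral_map measurable_fst.aemeasurable a1]
    have h2 : ∫ y, ψ (p y) ∂ν' = ∫ z, ψ (p z.2) ∂γ := by
      rw [← hγ.2, integral_map measurable_snd.aemeasurable a2]
    have i1 := hint γ (fun z => φ (p z.1)) (hφ.comp (hpc.comp continuous_fst))
    have i2 := hint γ (fun z => ψ (p z.2)) (hψ.comp (hpc.comp continuous_snd))
    have i3 : Integrable (fun z => φ (p z.1) + ψ (p z.2)) γ := i1.add i2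
    have e1 : ∫ z, (φ (p z.1) + ψ (p z.2)) ∂γ = ∫ z, φ (p z.1) ∂γ + ∫ z, ψ (p z.2) ∂γ :=
      integral_add i1 i2
    have e2 : ∫ z, ((φ (p z.1) + ψ (p z.2)) + D z) ∂γ =
        ∫ z, (φ (p z.1) + ψ (p z.2)) ∂γ + ∫ z, D z ∂γ := integral_add i3 (hint γ D hDc)
    rw [h1, h2, ← e1, ← e2]
    unfold cost
    refine integral_congr_ae (Eventually.of_forall fun z => ?_)
    simp only [D]
    ring
  have hgc : IsCoupling μ' ν' (graphPlan μ' T) :=
    ⟨graphPlan_fst μ' hTc, by rw [graphPlan_snd μ' hTc, hTμ]⟩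
  have hgD : ∫ z, D z ∂(graphPlan μ' T) = 0 := by
    unfold graphPlan
    rw [integral_map (measurable_graph hTc).aemeasurable hDc.aestronglyMeasurable]
    have h1 : ∀ x, D (x, T x) = 0 := fun x => hKD _ (hT x)
    simp [h1]
  refine ⟨T, hTc, hTμ, fun γ hγ => ?_⟩
  have hγp : IsProbabilityMeasure γ := isProbabilityMeasure_of_coupling hγ
  rw [hcost γ hγ, hcost _ hgc, hgD]
  have h0 : 0 ≤ ∫ z, D z ∂γ := integral_nonneg hD0
  refine ⟨by linarith, fun h => ?_⟩
  have h1 : ∫ z, D z ∂γ = 0 := by linarith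
  rw [integral_eq_zero_iff_of_nonneg hD0 (hint γ D hDc)] at h1
  refine eq_graphPlan_of_null hTc hγ.1 ?_
  have h2 : ∀ᵐ z ∂γ, z.2 = T z.1 := by
    filter_upwards [h1] with z hz
    exact hTK z (hDK z hz)
  exact ae_iff.1 h2

end Main

end Pool.Agent.Lib.MP_eae870_an
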